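import Mathlib

open Set Topology Filter

namespace Pool.Agent.H.MP_211c6f_gt

abbrev V (ι : Type) : Type := ℝ × (ι → ℝ)

structure Cone {ι : Type} (Φ : Set (V ι)) : Prop where
  cpt : IsCompact Φ
  zero : 0 ∈ Φ
  nonneg : ∀ x ∈ Φ, 0 ≤ x.1
  coord : ∀ x ∈ Φ, ∀ i, x.2 i = 0 ∨ x.2 i = x.1
  star : ∀ x ∈ Φ, ∀ s ∈ Icc (0 : ℝ) 1, s • x ∈ Φ

variable {ι : Type} {Φ : Set (V ι)}

lemma cut2 {Z : Type} [TopologicalSpace Z] {T A B : Set Z} (hT : IsPreconnected T)
    (hA : IsClosed A) (hB : IsClosed B) (h1 : T ⊆ A ∪ B) (h2 : ∀ z ∈ T, z ∈ A → z ∈ B → False) :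
    T ⊆ A ∨ T ⊆ B :=
  isPreconnected_iff_subset_of_disjoint_closed.1 hT A B hA hB h1
    (eq_empty_iff_forall_notMem.2 fun z hz => h2 z hz.1 hz.2.1 hz.2.2)

namespace Cone
variable (h : Cone Φ)
include h

lemma eq_zero {x : V ι} (hx : x ∈ Φ) (h0 : x.1 = 0) : x = 0 := by
  refine Prod.ext h0 (funext fun i => ?_)
  rcases h.coord x hx i with h1 | h1
  · exact h1
  · rw [h1, h0]; rfl

lemma pos {x : V ι} (hx : x ∈ Φ) (h0 : x ≠ 0) : 0 < x.1 :=
  lt_of_le_of_ne (h.nonneg x hx) fun h1 => h0 (h.eq_zero hx h1.symm)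

lemma leg {T : Set (V ι)} (hT : T ⊆ Φ) (hc : IsPreconnected T) (h0 : (0 : V ι) ∉ T) {x y : V ι}
    (hx : x ∈ T) (hy : y ∈ T) : y = (y.1 / x.1) • x := by
  have hp := h.pos (hT hx) fun h1 => h0 (h1 ▸ hx)
  refine Prod.ext (by simp; field_simp) (funext fun i => ?_)
  rcases cut2 (A := {z : V ι | z.2 i = 0}) (B := {z : V ι | z.2 i = z.1}) hc
    (isClosed_eq (by fun_prop) continuous_const) (isClosed_eq (by fun_prop) (by fun_prop))
    (fun z hz => h.coord z (hT hz) i)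
    (fun z hz h1 h2 => h0 (h.eq_zero (hT hz) (h2.symm.trans h1) ▸ hz)) with h1 | h1
  · simp [show x.2 i = 0 from h1 hx, show y.2 i = 0 from h1 hy]
  · simp only [Prod.smul_snd, Pi.smul_apply, smul_eq_mul, show x.2 i = x.1 from h1 hx,
      show y.2 i = y.1 from h1 hy]
    field_simp

lemma star_of {M : Set (V ι)} (hM : M ⊆ Φ) (hk : IsCompact M) (hc : IsPreconnected M)
    (h0 : (0 : V ι) ∈ M) {x : V ι} (hx : x ∈ M) {s : ℝ} (hs : s ∈ Icc (0 : ℝ) 1) : s • x ∈ M := by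
  by_contra hn
  have hx0 : x ≠ 0 := fun h1 => hn (by rw [h1, smul_zero]; exact h0)
  have hp := h.pos (hM hx) hx0
  have hs0 : 0 < s := lt_of_le_of_ne hs.1 fun h1 => hn (by rw [← h1, zero_smul]; exact h0)
  have hs1 : s < 1 := lt_of_le_of_ne hs.2 fun h1 => hn (by rw [h1, one_smul]; exact hx)
  obtain ⟨J, hJ⟩ := (hk.inter_right (isClosed_eq continuous_fst
    (continuous_const (y := s * x.1)))).elim_finite_subfamily_closed
    (fun i => {z : V ι | z.2 i * x.1 = x.2 i * z.1})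
    (fun i => isClosed_eq (by fun_prop) (by fun_prop)) (by
      rw [eq_empty_iff_forall_notMem]
      rintro z ⟨⟨h1, h2⟩, h3⟩
      apply hn
      have : s • x = z := by
        refine Prod.ext h2.symm (funext fun i => ?_)
        have h4 : z.2 i * x.1 = x.2 i * z.1 := mem_iInter.1 h3 i
        rw [show z.1 = s * x.1 from h2] at h4
        apply mul_right_cancel₀ hp.ne'
        simp only [Prod.smul_snd, Pi.smul_apply, smul_eq_mul]
        linarith
      rwa [this])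
  rcases cut2 (A := {z : V ι | s * x.1 ≤ z.1} ∩ ⋂ i ∈ J, {z : V ι | z.2 i * x.1 = x.2 i * z.1})
    (B := {z : V ι | z.1 ≤ s * x.1} ∪ ⋃ i ∈ J, {z : V ι | z.2 i * x.1 = (x.1 - x.2 i) * z.1}) hc
    ((isClosed_le continuous_const continuous_fst).inter
      (isClosed_biInter fun i _ => isClosed_eq (by fun_prop) (by fun_prop)))
    ((isClosed_le continuous_fst continuous_const).union
      (J.finite_toSet.isClosed_biUnion fun i _ => isClosed_eq (by fun_prop) (by fun_prop)))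
    (by
      intro z hz
      by_contra hn2
      simp only [mem_union, mem_inter_iff, mem_ofPred_eq, mem_iInter, mem_iUnion, not_or, not_and,
        not_le, not_exists] at hn2
      refine hn2.1 hn2.2.1.le fun i hi => ?_
      have h1 := hn2.2.2 i hi
      rcases h.coord z (hM hz) i with h2 | h2 <;> rcases h.coord x (hM hx) i with h3 | h3 <;>
        simp only [h2, h3] at h1 ⊢ <;> first | ring1 | exact absurd (by ring1) h1)
    (by
      rintro z hz ⟨h1, h2⟩ (h3 | h3)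
      · exact (eq_empty_iff_forall_notMem.1 hJ) z ⟨⟨hz, le_antisymm h3 h1⟩, h2⟩
      · obtain ⟨i, hi, h4⟩ := mem_iUnion₂.1 h3
        have h5 : z.2 i * x.1 = x.2 i * z.1 := mem_iInter₂.1 h2 i hi
        have h6 : 0 < z.1 := lt_of_lt_of_le (mul_pos hs0 hp) h1
        have h7 := mul_right_cancel₀ h6.ne' (h5.symm.trans h4)
        rcases h.coord x (hM hx) i with h8 | h8 <;> rw [h8] at h7 <;> linarith) with h1 | h1
  · have := (h1 h0).1
    simp only [mem_ofPred_eq, Prod.fst_zero] at this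
    linarith [mul_pos hs0 hp]
  · rcases h1 hx with h2 | h2
    · simp only [mem_ofPred_eq] at h2
      nlinarith
    · obtain ⟨i, hi, h4⟩ := mem_iUnion₂.1 h2
      have h7 := mul_right_cancel₀ hp.ne' h4
      rcases h.coord x (hM hx) i with h8 | h8 <;> rw [h8] at h7 <;> linarith

lemma ordc {M : Set (V ι)} (hM : M ⊆ Φ) (hk : IsCompact M) (hc : IsPreconnected M) {x : V ι}
    (hx : x ∈ M) {r : ℝ} (hr : 0 ≤ r) (hrx : r • x ∈ M) {s : ℝ} (hs : s ∈ uIcc 1 r) :
    s • x ∈ M := by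
  by_cases h0 : (0 : V ι) ∈ M
  · rcases le_total r 1 with h1 | h1
    · rw [uIcc_of_ge h1] at hs
      exact h.star_of hM hk hc h0 hx ⟨hr.trans hs.1, hs.2⟩
    · rw [uIcc_of_le h1] at hs
      have h2 : 0 < r := by linarith
      have := h.star_of hM hk hc h0 hrx (s := s / r)
        ⟨div_nonneg (by linarith [hs.1]) hr, (div_le_one h2).2 hs.2⟩
      rwa [smul_smul, div_mul_cancel₀ _ h2.ne'] at this
  · have hp := h.pos (hM hx) fun h1 => h0 (h1 ▸ hx)
    have h1 : s * x.1 ∈ uIcc x.1 (r • x).1 := by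
      simp only [Prod.smul_fst, smul_eq_mul, mem_uIcc] at hs ⊢
      rcases hs with h2 | h2
      · left; constructor <;> nlinarith [h2.1, h2.2]
      · right; constructor <;> nlinarith [h2.1, h2.2]
    obtain ⟨z, hz, h2⟩ := (hc.image _ continuous_fst.continuousOn).ordConnected.uIcc_subset
      ⟨x, hx, rfl⟩ ⟨_, hrx, rfl⟩ h1
    have := h.leg hM hc h0 hx hz
    rw [h2, mul_div_cancel_right₀ _ hp.ne'] at this
    rwa [← this]

lemma hu {K M : Set (V ι)} (hK : K ⊆ Φ) (hkK : IsCompact K) (hcK : IsPreconnected K)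
    (hM : M ⊆ Φ) (hkM : IsCompact M) (hcM : IsPreconnected M) : IsPreconnected (K ∩ M) := by
  have key : ∀ T : Set (V ι), T ⊆ Φ → IsPreconnected T → (0 : V ι) ∉ T → K ∩ M ⊆ T →
      IsPreconnected (K ∩ M) := by
    intro T h1 h2 h3 h4
    refine isPreconnected_of_forall_pair fun y hy z hz => ?_
    have h5 := h.leg h1 h2 h3 (h4 hy) (h4 hz)
    have h6 : 0 ≤ z.1 / y.1 := div_nonneg (h.nonneg z (hK hz.1)) (h.nonneg y (hK hy.1))
    refine ⟨(fun s : ℝ => s • y) '' uIcc 1 (z.1 / y.1), ?_, ⟨1, left_mem_uIcc, one_smul _ _⟩,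
      ⟨_, right_mem_uIcc, h5.symm⟩, isPreconnected_uIcc.image _ (by fun_prop)⟩
    rintro _ ⟨s, hs, rfl⟩
    exact ⟨h.ordc hK hkK hcK hy.1 h6 (h5 ▸ hz.1) hs, h.ordc hM hkM hcM hy.2 h6 (h5 ▸ hz.2) hs⟩
  by_cases h1 : (0 : V ι) ∈ K
  · by_cases h2 : (0 : V ι) ∈ M
    · refine isPreconnected_of_forall 0 fun y hy => ⟨(fun s : ℝ => s • y) '' Icc 0 1, ?_,
        ⟨0, by simp, zero_smul _ _⟩, ⟨1, by simp, one_smul _ _⟩,
        isPreconnected_Icc.image _ (by fun_prop)⟩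
      rintro _ ⟨s, hs, rfl⟩
      exact ⟨h.star_of hK hkK hcK h1 hy.1 hs, h.star_of hM hkM hcM h2 hy.2 hs⟩
    · exact key M hM hcM h2 inter_subset_right
  · exact key K hK hcK h1 inter_subset_left

lemma germ {f : unitInterval → V ι} (hf : Continuous f) (hi : Function.Injective f)
    (hr : ∀ t, f t ∈ Φ) {a b : unitInterval} (hab : a ≠ b) (h0 : f a ≠ 0) :
    ∃ r : ℝ, r ≠ 1 ∧ ∀ s ∈ uIcc 1 r, s • f a ∈ f '' uIcc a b := by
  have : ∃ τ ∈ uIcc a b, τ ≠ a ∧ (0 : V ι) ∉ f '' uIcc a τ := by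
    by_cases h1 : (0 : V ι) ∈ f '' uIcc a b
    · obtain ⟨c, hc, h2⟩ := h1
      have hca : c ≠ a := fun h3 => h0 (h3 ▸ h2)
      rcases lt_or_gt_of_ne hca with h3 | h3
      · obtain ⟨τ, h4, h5⟩ := exists_between h3
        refine ⟨τ, uIcc_subset_uIcc left_mem_uIcc hc (mem_uIcc_of_ge h4.le h5.le), h5.ne, ?_⟩
        rintro ⟨d, hd, h6⟩
        rw [hi (h6.trans h2.symm), uIcc_of_ge h5.le] at hd
        exact absurd hd.1 (not_le.2 h4)
      · obtain ⟨τ, h4, h5⟩ := exists_between h3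
        refine ⟨τ, uIcc_subset_uIcc left_mem_uIcc hc (mem_uIcc_of_le h4.le h5.le), h4.ne', ?_⟩
        rintro ⟨d, hd, h6⟩
        rw [hi (h6.trans h2.symm), uIcc_of_le h4.le] at hd
        exact absurd hd.2 (not_le.2 h5)
    · exact ⟨b, right_mem_uIcc, hab.symm, h1⟩
  obtain ⟨τ, h1, h2, h3⟩ := this
  have hT : f '' uIcc a τ ⊆ Φ := by rintro _ ⟨t, _, rfl⟩; exact hr t
  have hc : IsPreconnected (f '' uIcc a τ) := isPreconnected_uIcc.image _ hf.continuousOn
  have h4 := h.leg hT hc h3 ⟨a, left_mem_uIcc, rfl⟩ ⟨τ, right_mem_uIcc, rfl⟩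
  refine ⟨(f τ).1 / (f a).1, fun h5 => h2 (hi (by rw [h4, h5, one_smul])), fun s hs => ?_⟩
  refine image_mono (uIcc_subset_uIcc left_mem_uIcc h1) ?_
  exact h.ordc hT (isCompact_uIcc.image hf) hc ⟨a, left_mem_uIcc, rfl⟩
    (div_nonneg (h.nonneg _ (hr _)) (h.nonneg _ (hr _))) (h4 ▸ ⟨τ, right_mem_uIcc, rfl⟩) hs

lemma arc0 {f : unitInterval → V ι} (hf : Continuous f) (hi : Function.Injective f)
    (hr : ∀ t, f t ∈ Φ) (h0 : f 0 = 0) : range f = (fun s : ℝ => s • f 1) '' Icc 0 1 := by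
  have hsub : ∀ τ, f '' Icc 0 τ ⊆ Φ := by rintro τ _ ⟨t, _, rfl⟩; exact hr t
  have hst : ∀ τ, ∀ s ∈ Icc (0 : ℝ) 1, s • f τ ∈ f '' Icc 0 τ := fun τ s hs =>
    h.star_of (hsub τ) (isCompact_Icc.image hf) (isPreconnected_Icc.image _ hf.continuousOn)
      ⟨0, ⟨le_rfl, bot_le⟩, h0⟩ ⟨τ, ⟨bot_le, le_rfl⟩, rfl⟩ hs
  apply subset_antisymm
  · rintro _ ⟨τ, rfl⟩
    by_cases hτ : τ = 0
    · exact ⟨0, by simp, by simp [hτ, h0]⟩
    have hτ' : 0 < τ := lt_of_le_of_ne bot_le (Ne.symm hτ)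
    have h1 := h.leg (T := f '' Ioc 0 1) (by rintro _ ⟨t, _, rfl⟩; exact hr t)
      (isPreconnected_Ioc.image _ hf.continuousOn)
      (by rintro ⟨t, ht, h2⟩; exact ht.1.ne' (hi (h2.trans h0.symm)))
      ⟨1, ⟨zero_lt_one, le_rfl⟩, rfl⟩ ⟨τ, ⟨hτ', le_top⟩, rfl⟩
    have h2 : 0 ≤ (f τ).1 / (f 1).1 := div_nonneg (h.nonneg _ (hr _)) (h.nonneg _ (hr _))
    refine ⟨_, ⟨h2, ?_⟩, h1.symm⟩
    by_contra h3
    rw [not_le] at h3
    obtain ⟨t, ht, h4⟩ := hst τ ((f τ).1 / (f 1).1)⁻¹ ⟨inv_nonneg.2 h2, inv_le_one_of_one_le₀ h3.le⟩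
    conv_rhs at h4 => rw [h1]
    rw [smul_smul, ← h1, inv_mul_cancel₀ (by linarith), one_smul] at h4
    have h5 : τ = 1 := le_antisymm le_top (hi h4 ▸ ht.2)
    rw [h5, div_self (h.pos (hr 1) fun h6 => one_ne_zero (hi (h6.trans h0.symm))).ne'] at h3
    exact lt_irrefl _ h3
  · rintro _ ⟨s, hs, rfl⟩
    exact image_subset_range _ _ (hst 1 s hs)

end Cone

lemma common {r1 r2 : ℝ} (h : (r1 < 1 ∧ r2 < 1) ∨ (1 < r1 ∧ 1 < r2)) :
    ∃ s, s ≠ 1 ∧ s ∈ uIcc 1 r1 ∧ s ∈ uIcc 1 r2 := by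
  rcases h with h | h
  · exact ⟨max r1 r2, (max_lt h.1 h.2).ne, mem_uIcc_of_ge (le_max_left _ _) (max_lt h.1 h.2).le,
      mem_uIcc_of_ge (le_max_right _ _) (max_lt h.1 h.2).le⟩
  · exact ⟨min r1 r2, (lt_min h.1 h.2).ne', mem_uIcc_of_le (lt_min h.1 h.2).le (min_le_left _ _),
      mem_uIcc_of_le (lt_min h.1 h.2).le (min_le_right _ _)⟩

lemma smul_eq_self {x : V ι} (hx : x ≠ 0) {s : ℝ} (h : s • x = x) : s = 1 := by
  have : (s - 1) • x = 0 := by rw [sub_smul, h, one_smul, sub_self]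
  exact sub_eq_zero.1 ((smul_eq_zero.1 this).resolve_right hx)

def NP (x y : V ι) : Prop := ∀ s t : ℝ, s • x = t • y → s = 0 ∧ t = 0

def sc (h : Cone Φ) (s : unitInterval) (x : Φ) : Φ := ⟨s.1 • x.1, h.star x.1 x.2 s.1 s.2⟩

lemma sc_cont (h : Cone Φ) : Continuous fun q : unitInterval × Φ => sc h q.1 q.2 :=
  Continuous.subtype_mk (by fun_prop) _

lemma sc_cont' (h : Cone Φ) (x : Φ) : Continuous fun s => sc h s x :=
  (sc_cont h).comp (Continuous.prodMk_left x)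

lemma sc_inj (h : Cone Φ) {x : Φ} (hx : x.1 ≠ 0) : Function.Injective fun s => sc h s x :=
  fun _ _ h1 => Subtype.ext (smul_left_injective ℝ hx (congrArg Subtype.val h1))

def top (h : Cone Φ) : Φ := ⟨0, h.zero⟩

lemma sc_zero (h : Cone Φ) (x : Φ) : sc h 0 x = top h := Subtype.ext (zero_smul _ _)
lemma sc_one (h : Cone Φ) (x : Φ) : sc h 1 x = x := Subtype.ext (one_smul _ _)

lemma pathConn (h : Cone Φ) : PathConnectedSpace Φ := by
  have key : ∀ x : Φ, Joined (top h) x := fun x =>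
    ⟨⟨⟨fun s => sc h s x, sc_cont' h x⟩, sc_zero h x, sc_one h x⟩⟩
  exact ⟨⟨top h⟩, fun x y => (key x).symm.trans (key y)⟩

lemma huX (h : Cone Φ) (K M : Set Φ) (h1 : IsClosed K) (h2 : IsConnected K) (h3 : IsClosed M)
    (h4 : IsConnected M) : IsPreconnected (K ∩ M) := by
  have : CompactSpace Φ := isCompact_iff_compactSpace.1 h.cpt
  rw [← IsInducing.subtypeVal.isPreconnected_image, image_inter Subtype.val_injective]
  exact h.hu (Subtype.coe_image_subset _ _) (h1.isCompact.image continuous_subtype_val)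
    (h2.2.image _ continuous_subtype_val.continuousOn) (Subtype.coe_image_subset _ _)
    (h3.isCompact.image continuous_subtype_val) (h4.2.image _ continuous_subtype_val.continuousOn)

lemma ramX (h : Cone Φ) (p : Fin 3 → Φ) (hp : ∀ i j, i ≠ j → NP (p i).1 (p j).1) (w : Φ) :
    (∃ γ : Fin 3 → unitInterval → Φ,
        (∀ i, Continuous (γ i) ∧ Function.Injective (γ i) ∧ γ i 0 = w) ∧
        ∀ i j, i ≠ j → Set.range (γ i) ∩ Set.range (γ j) = {w}) ↔ w = top h := by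
  constructor
  · rintro ⟨γ, h1, h2⟩
    by_contra hw
    have hw0 : w.1 ≠ 0 := fun h3 => hw (Subtype.ext h3)
    have h3 : ∀ i, ∃ r : ℝ, r ≠ 1 ∧ ∀ s ∈ uIcc 1 r, ∃ t, (γ i t).1 = s • w.1 := by
      intro i
      obtain ⟨r, h4, h5⟩ := h.germ (f := fun t => (γ i t).1)
        (continuous_subtype_val.comp (h1 i).1) (Subtype.val_injective.comp (h1 i).2.1)
        (fun t => (γ i t).2) (a := 0) (b := 1) zero_ne_one (by rw [(h1 i).2.2]; exact hw0)
      refine ⟨r, h4, fun s hs => ?_⟩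
      obtain ⟨t, -, ht⟩ := h5 s hs
      exact ⟨t, by rw [← (h1 i).2.2]; exact ht⟩
    choose r hr hr' using h3
    have key : ∀ i j, i ≠ j → ¬ ((r i < 1 ∧ r j < 1) ∨ (1 < r i ∧ 1 < r j)) := by
      intro i j hij h4
      obtain ⟨s, h5, h6, h7⟩ := common h4
      obtain ⟨t, ht⟩ := hr' i s h6
      obtain ⟨u, hu⟩ := hr' j s h7
      have h8 : γ i t = w := (h2 i j hij).subset ⟨⟨t, rfl⟩, u, Subtype.ext (hu.trans ht.symm)⟩
      rw [h8] at ht
      exact h5 (smul_eq_self hw0 ht.symm)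
    have k1 := key 0 1 (by decide)
    have k2 := key 0 2 (by decide)
    have k3 := key 1 2 (by decide)
    rcases lt_or_gt_of_ne (hr 0) with a | a <;> rcases lt_or_gt_of_ne (hr 1) with b | b <;>
      rcases lt_or_gt_of_ne (hr 2) with c | c <;> tauto
  · rintro rfl
    have hne : ∀ i, (p i).1 ≠ 0 := by
      intro i h1
      obtain ⟨j, hj⟩ := exists_ne i
      simpa using (hp i j hj.symm 1 0 (by simp [h1])).1
    refine ⟨fun i s => sc h s (p i), fun i => ⟨sc_cont' h _, sc_inj h (hne i), sc_zero h _⟩,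
      fun i j hij => subset_antisymm ?_ ?_⟩
    · rintro _ ⟨⟨s, rfl⟩, t, ht⟩
      have := (hp i j hij s t (congrArg Subtype.val ht).symm).1
      exact Subtype.ext (by simp [sc, top, this])
    · rintro _ rfl
      exact ⟨⟨0, sc_zero h _⟩, 0, sc_zero h _⟩

lemma arcX (h : Cone Φ) {γ : unitInterval → Φ} (h1 : Continuous γ) (h2 : Function.Injective γ)
    (h3 : γ 0 = top h) : range γ = range fun s => sc h s (γ 1) := by
  have := h.arc0 (f := fun t => (γ t).1) (continuous_subtype_val.comp h1)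
    (Subtype.val_injective.comp h2) (fun t => (γ t).2) (by rw [h3]; rfl)
  ext z
  constructor
  · rintro ⟨t, rfl⟩
    obtain ⟨s, hs, h4⟩ := this.subset ⟨t, rfl⟩
    exact ⟨⟨s, hs⟩, Subtype.ext h4⟩
  · rintro ⟨s, rfl⟩
    obtain ⟨t, ht⟩ := this.symm.subset ⟨s.1, s.2, rfl⟩
    exact ⟨t, Subtype.ext ht⟩

lemma smoothX (h : Cone Φ) [m : MetricSpace Φ]
    (hm : m.toUniformSpace.toTopologicalSpace = instTopologicalSpaceSubtype)
    (x : ℕ → Φ) (y : Φ) (S : ℕ → Set Φ) (T : Set Φ)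
    (hx : Tendsto x atTop (@nhds _ instTopologicalSpaceSubtype y))
    (hS : ∀ n, (x n = top h ∧ S n = {top h}) ∨ ∃ γ : unitInterval → Φ,
      Continuous[_, instTopologicalSpaceSubtype] γ ∧
        Function.Injective γ ∧ γ 0 = top h ∧ γ 1 = x n ∧ Set.range γ = S n)
    (hT : (y = top h ∧ T = {top h}) ∨ ∃ γ : unitInterval → Φ,
      Continuous[_, instTopologicalSpaceSubtype] γ ∧
        Function.Injective γ ∧ γ 0 = top h ∧ γ 1 = y ∧ Set.range γ = T) :
    Tendsto (fun n => Metric.hausdorffDist (S n) T) atTop (𝓝 0) := by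
  have key : ∀ (y : Φ) (T : Set Φ), ((y = top h ∧ T = {top h}) ∨ ∃ γ : unitInterval → Φ,
      Continuous[_, instTopologicalSpaceSubtype] γ ∧
        Function.Injective γ ∧ γ 0 = top h ∧ γ 1 = y ∧ Set.range γ = T) →
      T = range fun s => sc h s y := by
    rintro y T (⟨rfl, rfl⟩ | ⟨γ, h1, h2, h3, rfl, rfl⟩)
    · have : (fun s => sc h s (top h)) = fun _ => top h :=
        funext fun s => Subtype.ext (smul_zero _)
      rw [this, range_const]
    · exact arcX h h1 h2 h3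
  have hc := sc_cont h
  have hS' := fun n => key _ _ (hS n)
  have hT' := key _ _ hT
  clear hS hT key
  rw [← hm] at hc hx
  let F : @ContinuousMap (Φ × unitInterval) Φ
      (@instTopologicalSpaceProd _ _ m.toUniformSpace.toTopologicalSpace _)
      m.toUniformSpace.toTopologicalSpace :=
    @ContinuousMap.mk _ _ (_) (_) (fun q => sc h q.2 q.1) (by
      let := m.toUniformSpace.toTopologicalSpace
      exact hc.comp continuous_swap)
  let := m.toUniformSpace.toTopologicalSpace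
  have h1 : Tendsto (fun n => F.curry (x n)) atTop (𝓝 (F.curry y)) :=
    (F.curry.continuous.tendsto y).comp hx
  rw [tendsto_iff_dist_tendsto_zero] at h1
  refine squeeze_zero (fun n => Metric.hausdorffDist_nonneg) (fun n => ?_) h1
  rw [hS' n, hT']
  refine Metric.hausdorffDist_le_of_mem_dist dist_nonneg ?_ ?_
  · rintro _ ⟨s, rfl⟩
    exact ⟨_, ⟨s, rfl⟩, ContinuousMap.dist_apply_le_dist (f := F.curry (x n)) (g := F.curry y) s⟩
  · rintro _ ⟨s, rfl⟩
    refine ⟨_, ⟨s, rfl⟩, ?_⟩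
    rw [dist_comm]
    exact ContinuousMap.dist_apply_le_dist (f := F.curry (x n)) (g := F.curry y) s

lemma endX (h : Cone Φ) {p q : Φ} (hpq : NP p.1 q.1) (e : Φ) :
    (∀ γ : unitInterval → Φ, Continuous γ → Function.Injective γ →
      e ∈ Set.range γ → e = γ 0 ∨ e = γ 1) ↔ e.1 ≠ 0 ∧ ∀ s : ℝ, 1 < s → s • e.1 ∉ Φ := by
  constructor
  · intro H
    have h0 : e.1 ≠ 0 := by
      intro h0
      have hm : ∀ t : unitInterval, max (1 - 2 * t.1) 0 • p.1 + max (2 * t.1 - 1) 0 • q.1 ∈ Φ := by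
        intro t
        rcases le_total t.1 (1 / 2) with h1 | h1
        · rw [max_eq_right (by linarith : 2 * t.1 - 1 ≤ 0), zero_smul, add_zero]
          exact h.star _ p.2 _ ⟨le_max_right _ _, max_le (by linarith [t.2.1]) zero_le_one⟩
        · rw [max_eq_right (by linarith : 1 - 2 * t.1 ≤ 0), zero_smul, zero_add]
          exact h.star _ q.2 _ ⟨le_max_right _ _, max_le (by linarith [t.2.2]) zero_le_one⟩
      rcases H (fun t => ⟨_, hm t⟩) (Continuous.subtype_mk (by fun_prop) _) (by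
        intro s t hst
        have h1 : max (1 - 2 * s.1) 0 • p.1 + max (2 * s.1 - 1) 0 • q.1 =
          max (1 - 2 * t.1) 0 • p.1 + max (2 * t.1 - 1) 0 • q.1 := congrArg Subtype.val hst
        have h2 := hpq (max (1 - 2 * s.1) 0 - max (1 - 2 * t.1) 0)
          (max (2 * t.1 - 1) 0 - max (2 * s.1 - 1) 0) (by
            rw [sub_smul, sub_smul, sub_eq_sub_iff_add_eq_add, h1, add_comm])
        have h3 := max_zero_sub_max_neg_zero_eq_self (1 - 2 * s.1)
        have h4 := max_zero_sub_max_neg_zero_eq_self (1 - 2 * t.1)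
        rw [neg_sub] at h3 h4
        exact Subtype.ext (by linarith [h2.1, h2.2]))
        ⟨⟨1 / 2, by norm_num, by norm_num⟩, Subtype.ext (by simp [h0])⟩ with h1 | h1
      · have := congrArg Subtype.val h1
        simp only [h0, Icc.coe_zero, mul_zero, sub_zero, zero_sub] at this
        norm_num at this
        simpa using (hpq 1 0 (by simp [← this])).1
      · have := congrArg Subtype.val h1
        simp only [h0, Icc.coe_one, mul_one] at this
        norm_num at this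
        simpa using (hpq 0 1 (by simp [← this])).2
    refine ⟨h0, fun s hs hse => ?_⟩
    have hs0 : s ≠ 0 := by linarith
    rcases H (fun t => sc h t ⟨_, hse⟩) (sc_cont' h _) (sc_inj h (smul_ne_zero hs0 h0))
      ⟨⟨s⁻¹, inv_nonneg.2 (by linarith), inv_le_one_of_one_le₀ hs.le⟩,
        Subtype.ext (by simp [sc, smul_smul, inv_mul_cancel₀ hs0])⟩ with h1 | h1
    · rw [sc_zero] at h1
      exact h0 (congrArg Subtype.val h1)
    · rw [sc_one] at h1
      exact hs.ne' (smul_eq_self h0 (congrArg Subtype.val h1).symm)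
  · rintro ⟨h0, hmax⟩ γ h1 h2 ⟨τ, rfl⟩
    by_contra hn
    push Not at hn
    have h3 : ∀ b, τ ≠ b → ∃ r : ℝ, r < 1 ∧ ∀ s ∈ uIcc 1 r, ∃ t ∈ uIcc τ b, (γ t).1 = s • (γ τ).1 := by
      intro b hb
      obtain ⟨r, h4, h5⟩ := h.germ (f := fun t => (γ t).1)
        (continuous_subtype_val.comp h1) (Subtype.val_injective.comp h2)
        (fun t => (γ t).2) hb h0
      refine ⟨r, ?_, h5⟩
      by_contra h6
      obtain ⟨t, -, ht⟩ := h5 r right_mem_uIcc
      exact hmax r (lt_of_le_of_ne (not_lt.1 h6) h4.symm) (ht ▸ (γ t).2)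
    obtain ⟨r1, a1, b1⟩ := h3 0 fun h4 => hn.1 (by rw [h4])
    obtain ⟨r2, a2, b2⟩ := h3 1 fun h4 => hn.2 (by rw [h4])
    obtain ⟨s, h5, h6, h7⟩ := common (Or.inl ⟨a1, a2⟩)
    obtain ⟨t, ht, h8⟩ := b1 s h6
    obtain ⟨u, hu, h9⟩ := b2 s h7
    have h10 : t = u := h2 (Subtype.ext (h8.trans h9.symm))
    rw [uIcc_of_ge unitInterval.nonneg'] at ht
    rw [uIcc_of_le unitInterval.le_one'] at hu
    have h11 : t = τ := le_antisymm ht.2 (h10 ▸ hu.1)
    rw [h11] at h8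
    exact h5 (smul_eq_self h0 h8.symm)

end Pool.Agent.H.MP_211c6f_gt
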