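import Pool.Agent.H.MP_211c6f_gt.Quot

open Set Topology Filter

namespace Pool.Agent.H.MP_211c6f_gt

noncomputable def ww (n : ℕ) : ℝ := 1 / (n + 1)
lemma ww_pos (n : ℕ) : 0 < ww n := by unfold ww; positivity
lemma ww_tend : Tendsto ww atTop (𝓝 0) := tendsto_one_div_add_atTop_nhds_zero_nat
lemma ww_anti {m n : ℕ} (h : m ≤ n) : ww n ≤ ww m :=
  one_div_le_one_div_of_le (by positivity) (by exact_mod_cast Nat.succ_le_succ h)

def Lk : Set (V ℕ) := {x | 0 ≤ x.1 ∧ (∀ i, x.2 i = 0 ∨ x.2 i = x.1) ∧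
  ∀ N, x.1 + ∑ n ∈ Finset.range N, ww n * x.2 n ≤ 1}

lemma Lk_cone : Cone Lk where
  cpt := by
    refine ((isCompact_Icc (a := (0 : ℝ)) (b := 1)).prod
      (isCompact_univ_pi fun _ : ℕ => isCompact_Icc (a := (0 : ℝ)) (b := 1))).of_isClosed_subset
      ?_ ?_
    · have : Lk = {x : V ℕ | 0 ≤ x.1} ∩ ((⋂ i, ({x : V ℕ | x.2 i = 0} ∪ {x | x.2 i = x.1})) ∩
          ⋂ N, {x : V ℕ | x.1 + ∑ n ∈ Finset.range N, ww n * x.2 n ≤ 1}) := by
        ext x
        simp [Lk]
      rw [this]
      exact (isClosed_le continuous_const continuous_fst).inter ((isClosed_iInter fun i =>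
        (isClosed_eq (by fun_prop) continuous_const).union
          (isClosed_eq (by fun_prop) (by fun_prop))).inter
        (isClosed_iInter fun N => isClosed_le (by fun_prop) continuous_const))
    · intro x hx
      have h1 : x.1 ≤ 1 := by simpa using hx.2.2 0
      refine ⟨⟨hx.1, h1⟩, fun i _ => ?_⟩
      rcases hx.2.1 i with h | h <;> rw [h]
      · simp
      · exact ⟨hx.1, h1⟩
  zero := ⟨le_rfl, fun _ => Or.inl rfl, fun N => by simp⟩
  nonneg := fun x hx => hx.1
  coord := fun x hx => hx.2.1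
  star := by
    intro x hx s hs
    refine ⟨mul_nonneg hs.1 hx.1, fun i => (hx.2.1 i).imp (fun h => by simp [h])
      fun h => by simp [h], fun N => ?_⟩
    have h1 := hx.2.2 N
    have h2 : (s • x).1 + ∑ n ∈ Finset.range N, ww n * (s • x).2 n =
        s * (x.1 + ∑ n ∈ Finset.range N, ww n * x.2 n) := by
      simp only [Prod.smul_fst, Prod.smul_snd, Pi.smul_apply, smul_eq_mul, mul_add,
        Finset.mul_sum]
      congr 1
      exact Finset.sum_congr rfl fun n _ => by ring
    rw [h2]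
    nlinarith [hs.1, hs.2]

noncomputable def sg (F : Finset ℕ) : ℝ := ∑ n ∈ F, ww n
lemma sg_nonneg (F : Finset ℕ) : 0 ≤ sg F := Finset.sum_nonneg fun n _ => (ww_pos n).le
noncomputable def ht (F : Finset ℕ) : ℝ := 1 / (1 + sg F)
lemma ht_pos (F : Finset ℕ) : 0 < ht F := by
  have := sg_nonneg F
  unfold ht
  positivity
lemma ht_mul (F : Finset ℕ) : ht F * (1 + sg F) = 1 := by
  have := sg_nonneg F
  unfold ht
  field_simp
noncomputable def ev (F : Finset ℕ) : V ℕ := (ht F, fun n => if n ∈ F then ht F else 0)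

lemma ev_sum (F : Finset ℕ) (N : ℕ) :
    ∑ n ∈ Finset.range N, ww n * (ev F).2 n = ht F * sg (Finset.range N ∩ F) := by
  simp only [ev, mul_ite, mul_zero, Finset.sum_ite_mem, sg, Finset.mul_sum]
  exact Finset.sum_congr rfl fun n _ => mul_comm _ _

lemma ev_mem (F : Finset ℕ) : ev F ∈ Lk := by
  refine ⟨(ht_pos F).le, fun i => ?_, fun N => ?_⟩
  · simp only [ev]
    split_ifs <;> simp
  · rw [ev_sum]
    have h1 : sg (Finset.range N ∩ F) ≤ sg F :=
      Finset.sum_le_sum_of_subset_of_nonneg Finset.inter_subset_right fun n _ _ => (ww_pos n).le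
    have h2 := ht_mul F
    have h3 := ht_pos F
    show ht F + _ ≤ 1
    nlinarith

noncomputable def ep (F : Finset ℕ) : Lk := ⟨ev F, ev_mem F⟩

lemma ep_ne (F : Finset ℕ) : (ep F).1 ≠ 0 := fun h => (ht_pos F).ne' (congrArg Prod.fst h)

lemma ep_max (F : Finset ℕ) (s : ℝ) (hs : 1 < s) : s • (ep F).1 ∉ Lk := by
  intro h
  have h1 := h.2.2 (F.sup id + 1)
  have h2 : ∑ n ∈ Finset.range (F.sup id + 1), ww n * (s • (ep F).1).2 n =
      s * ∑ n ∈ Finset.range (F.sup id + 1), ww n * (ev F).2 n := by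
    rw [Finset.mul_sum]
    exact Finset.sum_congr rfl fun n _ => by simp [ep]; ring
  have h3 : Finset.range (F.sup id + 1) ∩ F = F := Finset.inter_eq_right.2 fun n hn =>
    Finset.mem_range.2 (Nat.lt_succ_of_le (Finset.le_sup (f := id) hn))
  rw [h2, ev_sum, h3] at h1
  have h4 : (s • (ep F).1).1 = s * ht F := rfl
  have h5 := ht_mul F
  rw [h4] at h1
  nlinarith

lemma ep_NP {F G : Finset ℕ} (h : F ≠ G) : NP (ep F).1 (ep G).1 := by
  intro s t hst
  have h1 : s * ht F = t * ht G := congrArg Prod.fst hst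
  have h2 : ∀ i, s * (if i ∈ F then ht F else 0) = t * (if i ∈ G then ht G else 0) :=
    fun i => congrFun (congrArg Prod.snd hst) i
  obtain ⟨i, hi⟩ : ∃ i, ¬ (i ∈ F ↔ i ∈ G) := by
    by_contra h3
    push Not at h3
    exact h (Finset.ext h3)
  have h3 := h2 i
  have h4 : s * ht F = 0 := by
    by_cases h5 : i ∈ F <;> by_cases h6 : i ∈ G <;> simp only [h5, h6, if_true, if_false] at h3 hi
    · exact absurd trivial hi
    · simpa using h3
    · rw [h1, ← h3, mul_zero]
    · exact absurd trivial hi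
  exact ⟨(mul_eq_zero.1 h4).resolve_right (ht_pos F).ne',
    (mul_eq_zero.1 (h1 ▸ h4)).resolve_right (ht_pos G).ne'⟩

lemma ep_inj : Function.Injective ep := by
  intro F G h
  by_contra h1
  simpa using (ep_NP h1 1 1 (by rw [h])).1

lemma ht_sub (F G : Finset ℕ) : |ht F - ht G| ≤ |sg F - sg G| := by
  have h1 := sg_nonneg F
  have h2 := sg_nonneg G
  have : ht F - ht G = (sg G - sg F) / ((1 + sg F) * (1 + sg G)) := by
    unfold ht
    field_simp
    ring
  rw [this, abs_div, abs_sub_comm]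
  refine div_le_self (abs_nonneg _) ?_
  rw [abs_of_pos (by positivity)]
  nlinarith

lemma ht_insert (m : ℕ) (G : Finset ℕ) : |ht (insert m G) - ht G| ≤ ww m := by
  refine (ht_sub _ _).trans ?_
  by_cases h : m ∈ G
  · rw [Finset.insert_eq_of_mem h]
    simpa using (ww_pos m).le
  · rw [sg, Finset.sum_insert h, sg, add_sub_cancel_right, abs_of_pos (ww_pos m)]

lemma ev_insert {m : ℕ → ℕ} (hm : Tendsto m atTop atTop) (G : ℕ → Finset ℕ) :
    Tendsto (fun j => ev (insert (m j) (G j)) - ev (G j)) atTop (𝓝 0) := by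
  have h1 : Tendsto (fun j => ht (insert (m j) (G j)) - ht (G j)) atTop (𝓝 0) :=
    squeeze_zero_norm (fun j => ht_insert _ _) (ww_tend.comp hm)
  refine Tendsto.prodMk_nhds h1 (tendsto_pi_nhds.2 fun i => ?_)
  refine squeeze_zero_norm' ?_ (tendsto_zero_iff_norm_tendsto_zero.1 h1)
  filter_upwards [hm.eventually_gt_atTop i] with j hj
  simp only [ev, Pi.sub_apply, Finset.mem_insert, hj.ne, false_or]
  split_ifs <;> simp

lemma tail_sum (c : ℝ) (hc : 0 ≤ c) (j : ℕ) :
    ∃ H : Finset ℕ, (∀ n ∈ H, j ≤ n) ∧ c ≤ sg H ∧ sg H ≤ c + ww j := by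
  have h1 : ∃ L, c ≤ sg (Finset.Ico j (j + L)) := by
    obtain ⟨N, hN⟩ := ((Real.tendsto_sum_range_one_div_nat_succ_atTop.eventually_ge_atTop
      (c + sg (Finset.range j))).and (eventually_ge_atTop j)).exists
    refine ⟨N - j, ?_⟩
    rw [Nat.add_sub_cancel' hN.2, sg, Finset.sum_Ico_eq_sub _ hN.2]
    have := hN.1
    unfold sg ww at *
    linarith
  classical
  refine ⟨_, fun n hn => (Finset.mem_Ico.1 hn).1, Nat.find_spec h1, ?_⟩
  rcases h2 : Nat.find h1 with _ | L
  · simpa [sg] using add_nonneg hc (ww_pos j).le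
  · have h3 := Nat.find_min h1 (m := L) (by omega)
    rw [← add_assoc, sg, Finset.sum_Ico_succ_top (by omega)]
    have := ww_anti (Nat.le_add_right j L)
    unfold sg at h3
    linarith

lemma exists_approx {x : V ℕ} (hx : x ∈ Lk) (h0 : x ≠ 0) :
    ∃ G : ℕ → Finset ℕ, Tendsto (fun j => ev (G j)) atTop (𝓝 x) := by
  classical
  have hp := Lk_cone.pos hx h0
  let D : ℕ → Finset ℕ := fun j => (Finset.range j).filter fun i => x.2 i ≠ 0
  have hD : ∀ j, 0 ≤ 1 / x.1 - 1 - sg (D j) := by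
    intro j
    have h1 := hx.2.2 j
    have h2 : ∑ n ∈ Finset.range j, ww n * x.2 n = sg (D j) * x.1 := by
      rw [sg, Finset.sum_filter, Finset.sum_mul]
      refine Finset.sum_congr rfl fun n _ => ?_
      rcases hx.2.1 n with h | h
      · simp [h]
      · simp [h, hp.ne']
    rw [h2] at h1
    have : 1 / x.1 - 1 - sg (D j) = (1 - (x.1 + sg (D j) * x.1)) / x.1 := by field_simp; ring
    rw [this]
    exact div_nonneg (by linarith) hp.le
  choose H h1 h2 h3 using fun j => tail_sum _ (hD j) j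
  have hdis : ∀ j, Disjoint (D j) (H j) := fun j => Finset.disjoint_left.2 fun n hn hn' =>
    absurd (h1 j n hn') (not_le.2 (Finset.mem_range.1 (Finset.mem_filter.1 hn).1))
  have h4 : Tendsto (fun j => sg (D j ∪ H j)) atTop (𝓝 (1 / x.1 - 1)) := by
    refine tendsto_of_tendsto_of_tendsto_of_le_of_le tendsto_const_nhds
      (by simpa using ww_tend.const_add (1 / x.1 - 1)) (fun j => ?_) (fun j => ?_)
    · have := h2 j
      simp only [sg, Finset.sum_union (hdis j)] at this ⊢
      linarith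
    · have := h3 j
      simp only [sg, Finset.sum_union (hdis j), one_div] at this ⊢
      linarith
  have h5 : Tendsto (fun j => ht (D j ∪ H j)) atTop (𝓝 x.1) := by
    have := (h4.const_add 1).inv₀ (by simp [hp.ne'])
    simpa [ht] using this
  refine ⟨fun j => D j ∪ H j, Tendsto.prodMk_nhds h5 (tendsto_pi_nhds.2 fun i => ?_)⟩
  have h6 : ∀ᶠ j in atTop, i ∈ D j ∪ H j ↔ x.2 i ≠ 0 := by
    filter_upwards [eventually_gt_atTop i] with j hj
    have : i ∉ H j := fun h => absurd (h1 j i h) (not_le.2 hj)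
    simp [D, this, hj]
  by_cases h7 : x.2 i = 0
  · rw [h7]
    refine tendsto_const_nhds.congr' ?_
    filter_upwards [h6] with j hj
    rw [if_neg fun h => hj.1 h h7]
  · rw [(hx.2.1 i).resolve_left h7]
    refine h5.congr' ?_
    filter_upwards [h6] with j hj
    rw [if_pos (hj.2 h7)]

def GG (k : ℕ) : Finset ℕ := (Denumerable.eqv (Finset ℕ)).symm (Nat.unpair k).2
def mm (k : ℕ) : ℕ := 4 * (Nat.pair k ((GG k).sup id) + 1)
lemma mm_ge (k : ℕ) : k ≤ mm k := by
  have := Nat.left_le_pair k ((GG k).sup id)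
  unfold mm
  omega
lemma mm_gt {k n : ℕ} (h : n ∈ GG k) : n < mm k := by
  have := Nat.right_le_pair k ((GG k).sup id)
  have h2 : n ≤ (GG k).sup id := Finset.le_sup (f := id) h
  unfold mm
  omega
lemma mm_inj {k l : ℕ} (h : mm k = mm l) : k = l := by
  unfold mm at h
  have : Nat.pair k ((GG k).sup id) = Nat.pair l ((GG l).sup id) := by omega
  exact (Nat.pair_eq_pair.1 this).1
lemma mm_mod (k : ℕ) : mm k % 4 = 0 := by unfold mm; omega
lemma mm_tend : Tendsto mm atTop atTop := tendsto_atTop_mono mm_ge tendsto_id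

def sa (k : ℕ) : Finset ℕ := insert (mm k) (GG k)
def sb (k : ℕ) : Finset ℕ := insert (mm k + 1) (GG k)

lemma dense_aux (d : ℕ) : Dense (range fun k => ep (insert (mm k + d) (GG k))) := by
  have key : ∀ x : Lk, x.1 ≠ 0 → x ∈ closure (range fun k => ep (insert (mm k + d) (GG k))) := by
    intro x h0
    obtain ⟨G, hG⟩ := exists_approx x.2 h0
    let k : ℕ → ℕ := fun j => Nat.pair j (Denumerable.eqv (Finset ℕ) (G j))
    have hk : ∀ j, GG (k j) = G j := fun j => by simp [GG, k]
    have h1 : Tendsto (fun j => mm (k j) + d) atTop atTop :=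
      tendsto_atTop_mono (fun j => ((Nat.left_le_pair j _).trans (mm_ge _)).trans
        (Nat.le_add_right _ _)) tendsto_id
    refine mem_closure_of_tendsto (f := fun j => ep (insert (mm (k j) + d) (GG (k j))))
      (b := atTop) ?_ (Eventually.of_forall fun j => ⟨k j, rfl⟩)
    rw [tendsto_subtype_rng]
    simpa [ep, hk] using (ev_insert h1 G).add hG
  intro x
  by_cases h0 : x.1 = 0
  · have h1 : Tendsto (fun n => (⟨ww n • (ep ∅).1, Lk_cone.star _ (ep ∅).2 _
        ⟨(ww_pos n).le, by simpa [ww] using ww_anti (Nat.zero_le n)⟩⟩ : Lk)) atTop (𝓝 x) := by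
      rw [tendsto_subtype_rng, h0]
      simpa using ww_tend.smul_const (ep ∅).1
    exact isClosed_closure.mem_of_tendsto h1 (Eventually.of_forall fun n =>
      key _ (smul_ne_zero (ww_pos n).ne' (ep_ne _)))
  · exact key x h0

lemma sup_sa (k : ℕ) : (sa k).sup id = mm k := by
  rw [sa, Finset.sup_insert]
  exact sup_eq_left.2 (Finset.sup_le fun n hn => (mm_gt hn).le)
lemma sup_sb (k : ℕ) : (sb k).sup id = mm k + 1 := by
  rw [sb, Finset.sup_insert]
  exact sup_eq_left.2 (Finset.sup_le fun n hn => (mm_gt hn).le.trans (Nat.le_succ _))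

lemma sa_inj : Function.Injective sa := fun k l h => mm_inj (by rw [← sup_sa, h, sup_sa])
lemma sb_inj : Function.Injective sb := fun k l h =>
  mm_inj (Nat.succ_injective (by rw [Nat.succ_eq_add_one, ← sup_sb, h, sup_sb]))
lemma sa_ne_sb (k l : ℕ) : sa k ≠ sb l := fun h => by
  have h1 := sup_sa k
  rw [h, sup_sb] at h1
  have := mm_mod k
  have := mm_mod l
  omega

def sa' (n : ℕ) : Finset ℕ := if n % 2 = 0 then sa (n / 2) else insert (4 * (n / 2) + 2) {2}
def sb' (n : ℕ) : Finset ℕ := if n % 2 = 0 then sb (n / 2) else insert (4 * (n / 2) + 3) {3}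

lemma sup_sa' (n : ℕ) : (sa' n).sup id = if n % 2 = 0 then mm (n / 2) else 4 * (n / 2) + 2 := by
  unfold sa'
  split_ifs
  · exact sup_sa _
  · simp
lemma sup_sb' (n : ℕ) :
    (sb' n).sup id = if n % 2 = 0 then mm (n / 2) + 1 else 4 * (n / 2) + 3 := by
  unfold sb'
  split_ifs
  · exact sup_sb _
  · simp

lemma sa'_inj : Function.Injective sa' := by
  intro k l h
  have h1 := sup_sa' k
  rw [h, sup_sa'] at h1
  have := mm_mod (k / 2)
  have := mm_mod (l / 2)
  split_ifs at h1
  · have := mm_inj h1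
    omega
  all_goals omega
lemma sb'_inj : Function.Injective sb' := by
  intro k l h
  have h1 := sup_sb' k
  rw [h, sup_sb'] at h1
  have := mm_mod (k / 2)
  have := mm_mod (l / 2)
  split_ifs at h1
  · have := mm_inj (Nat.succ_injective h1)
    omega
  all_goals omega
lemma sa'_ne_sb' (k l : ℕ) : sa' k ≠ sb' l := fun h => by
  have h1 := sup_sa' k
  rw [h, sup_sb'] at h1
  have := mm_mod (k / 2)
  have := mm_mod (l / 2)
  split_ifs at h1 <;> omega

instance : CompactSpace Lk := isCompact_iff_compactSpace.1 Lk_cone.cpt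

lemma closed1 : IsClosed ({p : Lk × Lk | p.1 = p.2} ∪ range fun k => (ep (sa k), ep (sb k))) := by
  have h := closed_union_range (g := fun p : Lk × Lk => p.1.1 - p.2.1) (by fun_prop)
    (f := fun k => (ep (sa k), ep (sb k))) (w := 0) (by
      have := (ev_insert mm_tend GG).sub (ev_insert (m := fun k => mm k + 1)
        (tendsto_atTop_mono (fun k => Nat.le_succ _) mm_tend) GG)
      simpa [ep, sa, sb] using this)
  convert h using 2
  ext p
  simp [sub_eq_zero, Subtype.ext_iff]

lemma closed_PR {a b : ℕ → Lk}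
    (h : IsClosed ({p : Lk × Lk | p.1 = p.2} ∪ range fun k => (a k, b k))) :
    IsClosed {p : Lk × Lk | PR a b p.1 p.2} := by
  convert h.union (h.preimage continuous_swap) using 1
  ext ⟨x, y⟩
  simp only [PR, mem_ofPred_eq, mem_union, mem_range, Prod.mk.injEq, mem_preimage, Prod.swap]
  constructor
  · rintro (h | ⟨n, h | h⟩)
    · exact Or.inl (Or.inl h)
    · exact Or.inl (Or.inr ⟨n, h.1.symm, h.2.symm⟩)
    · exact Or.inr (Or.inr ⟨n, h.2.symm, h.1.symm⟩)
  · rintro ((h | ⟨n, h⟩) | h | ⟨n, h⟩)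
    · exact Or.inl h
    · exact Or.inr ⟨n, Or.inl ⟨h.1.symm, h.2.symm⟩⟩
    · exact Or.inl h.symm
    · exact Or.inr ⟨n, Or.inr ⟨h.2.symm, h.1.symm⟩⟩

lemma sp_tend (d : ℕ) :
    Tendsto (fun j => ep (insert (4 * j + d) {d})) atTop (𝓝 (ep (insert (4 * 0 + d) {d}))) := by
  rw [tendsto_subtype_rng]
  have := (ev_insert (m := fun j => 4 * j + d) (tendsto_atTop_mono (fun j => by
    show j ≤ _
    omega) tendsto_id) fun _ => {d}).add_const (ev {d})
  simpa [ep] using this

lemma closed2 : IsClosed ({p : Lk × Lk | p.1 = p.2} ∪ range fun k => (ep (sa' k), ep (sb' k))) := by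
  have h := closed_union_range (g := id) continuous_id
    (f := fun j => (ep (insert (4 * j + 2) {2}), ep (insert (4 * j + 3) {3})))
    ((sp_tend 2).prodMk_nhds (sp_tend 3))
  convert closed1.union h using 1
  rw [preimage_id, union_eq_self_of_subset_left (singleton_subset_iff.2 (mem_range_self
    (f := fun j => (ep (insert (4 * j + 2) {2}), ep (insert (4 * j + 3) {3}))) 0)),
    union_assoc]
  congr 1
  ext p
  constructor
  · rintro ⟨n, rfl⟩
    by_cases h : n % 2 = 0
    · exact Or.inl ⟨n / 2, by simp [sa', sb', h]⟩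
    · exact Or.inr ⟨n / 2, by simp only [sa', sb', if_neg h]⟩
  · rintro (⟨k, rfl⟩ | ⟨k, rfl⟩)
    · exact ⟨2 * k, by simp [sa', sb']⟩
    · refine ⟨2 * k + 1, ?_⟩
      have h1 : ¬ (2 * k + 1) % 2 = 0 := by omega
      have h2 : (2 * k + 1) / 2 = k := by omega
      simp only [sa', sb', if_neg h1, h2]

end Pool.Agent.H.MP_211c6f_gt
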