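import Pool.Agent.H.MP_211c6f_gt.Lelek

open Set Topology Filter

namespace Pool.Agent.H.MP_211c6f_gt

noncomputable abbrev v0 : Lk := top Lk_cone

open Classical in
noncomputable def tr (N : ℕ) (x : Lk) : Finset ℕ := (Finset.range N).filter fun i => x.1.2 i ≠ 0

lemma mem_tr {N i : ℕ} {x : Lk} : i ∈ tr N x ↔ i < N ∧ x.1.2 i ≠ 0 := by simp [tr]

lemma ep_supp (F : Finset ℕ) (i : ℕ) : (ep F).1.2 i ≠ 0 ↔ i ∈ F := by
  simp [ep, ev, (ht_pos F).ne']

def Cyl (N : ℕ) (F : Finset ℕ) : Set Lk := {x | ∀ i < N, x.1.2 i = if i ∈ F then x.1.1 else 0}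

lemma Cyl_closed (N : ℕ) (F : Finset ℕ) : IsClosed (Cyl N F) := by
  have : Cyl N F = ⋂ i, ⋂ (_ : i < N), {x : Lk | x.1.2 i = if i ∈ F then x.1.1 else 0} := by
    ext x
    simp [Cyl]
  rw [this]
  refine isClosed_iInter fun i => isClosed_iInter fun _ => isClosed_eq (by fun_prop) ?_
  split_ifs <;> fun_prop

lemma mem_Cyl (N : ℕ) (x : Lk) : x ∈ Cyl N (tr N x) := by
  intro i hi
  simp only [mem_tr, hi, true_and]
  split_ifs with h
  · exact (x.2.2.1 i).resolve_left h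
  · exact not_not.1 h

lemma pos_of_ne {x : Lk} (hx : x ≠ v0) : 0 < x.1.1 :=
  Lk_cone.pos x.2 fun h => hx (Subtype.ext h)

lemma tr_eq {N : ℕ} {F : Finset ℕ} (hF : F ⊆ Finset.range N) {x : Lk} (hx : x ≠ v0)
    (h : x ∈ Cyl N F) : tr N x = F := by
  ext i
  rw [mem_tr]
  constructor
  · rintro ⟨h1, h2⟩
    by_contra h3
    exact h2 (by rw [h i h1, if_neg h3])
  · intro h1
    have h2 := Finset.mem_range.1 (hF h1)
    exact ⟨h2, by rw [h i h2, if_pos h1]; exact (pos_of_ne hx).ne'⟩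

lemma tr_pair (M k : ℕ) : PR sa sb (tr (4 * M) (ep (sa k))) (tr (4 * M) (ep (sb k))) := by
  have h0 := mm_mod k
  rcases lt_or_ge (mm k) (4 * M) with h | h
  · refine Or.inr ⟨k, Or.inl ⟨?_, ?_⟩⟩ <;> ext i <;> rw [mem_tr, ep_supp, and_iff_right_iff_imp]
    · intro hi
      rcases Finset.mem_insert.1 hi with h1 | h1
      · omega
      · exact (mm_gt h1).trans h
    · intro hi
      rcases Finset.mem_insert.1 hi with h1 | h1
      · omega
      · exact (mm_gt h1).trans h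
  · left
    ext i
    simp only [mem_tr, ep_supp, sa, sb, Finset.mem_insert]
    constructor <;> rintro ⟨h1, h2 | h2⟩ <;> first | omega | exact ⟨h1, Or.inr h2⟩

def Leg (x : Lk) : Set Lk := {y | ∀ i, y.1.2 i * x.1.1 = x.1.2 i * y.1.1}

lemma Leg_closed (x : Lk) : IsClosed (Leg x) := by
  have : Leg x = ⋂ i, {y : Lk | y.1.2 i * x.1.1 = x.1.2 i * y.1.1} := by
    ext y
    simp [Leg]
  rw [this]
  exact isClosed_iInter fun i => isClosed_eq (by fun_prop) (by fun_prop)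

lemma v0_Leg (x : Lk) : v0 ∈ Leg x := fun i => by simp [top]
lemma self_Leg (x : Lk) : x ∈ Leg x := fun _ => rfl

lemma mem_Leg {x y : Lk} (hx : x ≠ v0) (hy : y ≠ v0) (h : ∀ i, y.1.2 i ≠ 0 ↔ x.1.2 i ≠ 0) :
    y ∈ Leg x := by
  intro i
  have h1 := h i
  have h4 := (pos_of_ne hx).ne'
  have h5 := (pos_of_ne hy).ne'
  rcases x.2.2.1 i with h2 | h2 <;> rcases y.2.2.1 i with h3 | h3 <;> rw [h2, h3] at h1 ⊢
  · simp
  · simp [h5] at h1
  · simp [h4] at h1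
  · ring

lemma Leg_supp {x y : Lk} (hx : x ≠ v0) (hy : y ≠ v0) (h : y ∈ Leg x) (i : ℕ) :
    y.1.2 i ≠ 0 ↔ x.1.2 i ≠ 0 := by
  have h1 := h i
  have h4 := (pos_of_ne hx).ne'
  have h5 := (pos_of_ne hy).ne'
  constructor
  · intro h2 h3
    rw [h3, zero_mul] at h1
    exact h2 ((mul_eq_zero.1 h1).resolve_right h4)
  · intro h2 h3
    rw [h3, zero_mul] at h1
    exact h2 ((mul_eq_zero.1 h1.symm).resolve_right h5)

lemma Leg_ht {x : Lk} (hx : x ≠ v0) : InjOn (fun y : Lk => y.1.1) (Leg x) := by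
  intro y hy z hz h
  refine Subtype.ext (Prod.ext h (funext fun i => ?_))
  apply mul_right_cancel₀ (pos_of_ne hx).ne'
  rw [hy i, hz i, show y.1.1 = z.1.1 from h]

lemma ep_ne_v0 (F : Finset ℕ) : ep F ≠ v0 := fun h => ep_ne F (congrArg Subtype.val h)

lemma ep_Leg {x : Lk} (hx : x ≠ v0) {F G : Finset ℕ} (h1 : ep F ∈ Leg x) (h2 : ep G ∈ Leg x) :
    F = G := by
  ext i
  rw [← ep_supp, ← ep_supp, Leg_supp hx (ep_ne_v0 F) h1, Leg_supp hx (ep_ne_v0 G) h2]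

section
variable {Z : Type} [TopologicalSpace Z] [T2Space Z] {q : Lk → Z} (hq : Continuous q)
  (hs : Function.Surjective q)
  (hr : ∀ x y, q x = q y ↔ PR (fun k => ep (sa k)) (fun k => ep (sb k)) x y)
include hr

omit [TopologicalSpace Z] [T2Space Z] in
lemma q_top {x : Lk} (h : q x = q v0) : x = v0 := by
  rcases (hr _ _).1 h with h1 | ⟨n, h1 | h1⟩
  · exact h1
  · exact absurd h1.2.symm (ep_ne_v0 _)
  · exact absurd h1.2.symm (ep_ne_v0 _)

omit [TopologicalSpace Z] [T2Space Z] in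
lemma q_tr (M : ℕ) {x y : Lk} (h : q x = q y) : PR sa sb (tr (4 * M) x) (tr (4 * M) y) := by
  rcases (hr _ _).1 h with rfl | ⟨n, ⟨rfl, rfl⟩ | ⟨rfl, rfl⟩⟩
  · exact Or.inl rfl
  · exact tr_pair M n
  · exact (tr_pair M n).symm

omit [TopologicalSpace Z] [T2Space Z] in
lemma q_Leg {x : Lk} (hx : x ≠ v0) : InjOn q (Leg x) := by
  intro y hy z hz h
  rcases (hr _ _).1 h with h1 | ⟨n, ⟨rfl, rfl⟩ | ⟨rfl, rfl⟩⟩
  · exact h1
  · exact absurd (ep_Leg hx hy hz) (sa_ne_sb _ _)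
  · exact absurd (ep_Leg hx hz hy) (sa_ne_sb _ _)

include hq hs

lemma class_tr {T : Set Z} (hT : IsPreconnected T) (h0 : q v0 ∉ T) {x y : Lk} (hx : q x ∈ T)
    (hy : q y ∈ T) (M : ℕ) : PR sa sb (tr (4 * M) x) (tr (4 * M) y) := by
  have hcl : ∀ P : Finset ℕ → Prop, IsClosed (q '' ⋃ F ∈ {F | F ⊆ Finset.range (4 * M) ∧ P F},
      Cyl (4 * M) F) := by
    intro P
    refine (IsClosed.isCompact (Finite.isClosed_biUnion ?_ fun F _ => Cyl_closed _ F)).image hq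
      |>.isClosed
    exact (Finset.range (4 * M)).powerset.finite_toSet.subset fun F hF =>
      Finset.mem_coe.2 (Finset.mem_powerset.2 hF.1)
  have hne : ∀ z, q z ∈ T → z ≠ v0 := fun z h1 h2 => h0 (h2 ▸ h1)
  have key : ∀ (P : Finset ℕ → Prop) (z : Lk), q z ∈ T →
      q z ∈ (q '' ⋃ F ∈ {F | F ⊆ Finset.range (4 * M) ∧ P F}, Cyl (4 * M) F) →
      ∃ F, P F ∧ PR sa sb F (tr (4 * M) z) := by
    rintro P z hz ⟨w, hw, h1⟩
    obtain ⟨F, hF, h2⟩ := mem_iUnion₂.1 hw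
    exact ⟨F, hF.2, tr_eq hF.1 (hne w (h1 ▸ hz)) h2 ▸ q_tr hr M h1⟩
  rcases cut2 hT (hcl fun F => PR sa sb (tr (4 * M) x) F) (hcl fun F => ¬ PR sa sb (tr (4 * M) x) F)
    (by
      intro z _
      obtain ⟨w, rfl⟩ := hs z
      by_cases h : PR sa sb (tr (4 * M) x) (tr (4 * M) w)
      · exact Or.inl ⟨w, mem_iUnion₂.2 ⟨_, ⟨Finset.filter_subset _ _, h⟩, mem_Cyl _ _⟩, rfl⟩
      · exact Or.inr ⟨w, mem_iUnion₂.2 ⟨_, ⟨Finset.filter_subset _ _, h⟩, mem_Cyl _ _⟩, rfl⟩)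
    (by
      intro z hz h1 h2
      obtain ⟨w, rfl⟩ := hs z
      obtain ⟨F, h3, h4⟩ := key _ w hz h1
      obtain ⟨G, h5, h6⟩ := key _ w hz h2
      exact h5 ((h3.trans sa_inj sb_inj sa_ne_sb h4).trans sa_inj sb_inj sa_ne_sb h6.symm))
    with h | h
  · obtain ⟨F, h3, h4⟩ := key _ y hy (h hy)
    exact h3.trans sa_inj sb_inj sa_ne_sb h4
  · obtain ⟨F, h3, h4⟩ := key _ x hx (h hx)
    exact absurd h4.symm h3

lemma class_leg {T : Set Z} (hT : IsPreconnected T) (h0 : q v0 ∉ T) {x y : Lk} (hx : q x ∈ T)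
    (hy : q y ∈ T) : y ∈ Leg x ∨ ∃ k, (x ∈ Leg (ep (sa k)) ∧ y ∈ Leg (ep (sb k))) ∨
      (x ∈ Leg (ep (sb k)) ∧ y ∈ Leg (ep (sa k))) := by
  have hne : ∀ z, q z ∈ T → z ≠ v0 := fun z h1 h2 => h0 (h2 ▸ h1)
  have key : ∀ x y : Lk, q x ∈ T → q y ∈ T → ∀ M k, tr (4 * M) x = sa k → tr (4 * M) y = sb k →
      x ∈ Leg (ep (sa k)) ∧ y ∈ Leg (ep (sb k)) := by
    intro x y hx hy M k h1 h2
    have a1 : mm k ∈ tr (4 * M) x := h1 ▸ Finset.mem_insert_self _ _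
    have a2 : mm k ∉ tr (4 * M) y := by
      rw [h2, sb, Finset.mem_insert, not_or]
      exact ⟨by omega, fun h => lt_irrefl _ (mm_gt h)⟩
    rw [mem_tr] at a1 a2
    have h3 : ∀ M', M ≤ M' → tr (4 * M') x = sa k ∧ tr (4 * M') y = sb k := by
      intro M' hM
      have b1 : mm k ∈ tr (4 * M') x := mem_tr.2 ⟨by omega, a1.2⟩
      have b2 : mm k ∉ tr (4 * M') y := fun h => a2 ⟨a1.1, (mem_tr.1 h).2⟩
      rcases class_tr hq hs hr hT h0 hx hy M' with h | ⟨l, h | h⟩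
      · exact absurd (h ▸ b1) b2
      · rw [h.1, sa, Finset.mem_insert] at b1
        rw [h.2, sb, Finset.mem_insert, not_or] at b2
        rw [mm_inj (b1.resolve_right b2.2)]
        exact h
      · rw [h.1, sb, Finset.mem_insert] at b1
        rw [h.2, sa, Finset.mem_insert, not_or] at b2
        have := b1.resolve_right b2.2
        have := mm_mod k
        have := mm_mod l
        omega
    constructor
    · refine mem_Leg (ep_ne_v0 _) (hne x hx) fun i => ?_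
      rw [ep_supp, ← (h3 (M + i + 1) (by omega)).1, mem_tr, and_iff_right (by omega)]
    · refine mem_Leg (ep_ne_v0 _) (hne y hy) fun i => ?_
      rw [ep_supp, ← (h3 (M + i + 1) (by omega)).2, mem_tr, and_iff_right (by omega)]
  by_cases h : ∀ i, y.1.2 i ≠ 0 ↔ x.1.2 i ≠ 0
  · exact Or.inl (mem_Leg (hne x hx) (hne y hy) h)
  · right
    rcases not_forall.1 h with ⟨i, hi⟩
    rcases class_tr hq hs hr hT h0 hx hy (i + 1) with h1 | ⟨k, h1 | h1⟩
    · have h2 : i ∈ tr (4 * (i + 1)) y ↔ i ∈ tr (4 * (i + 1)) x := by rw [h1]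
      rw [mem_tr, mem_tr, and_iff_right (by omega), and_iff_right (by omega)] at h2
      exact absurd h2 hi
    · exact ⟨k, Or.inl (key x y hx hy _ k h1.1 h1.2)⟩
    · exact ⟨k, Or.inr (key y x hy hx _ k h1.2 h1.1).symm⟩

omit hs in
lemma no_leg {γ : ℝ → Z} (h : Loop γ) {x : Lk} (hx : x ≠ v0) : ¬ γ '' Icc 0 1 ⊆ q '' Leg x :=
  h.not_line hq (Leg_closed x) (q_Leg hr hx) (by fun_prop) (Leg_ht hx)

omit [TopologicalSpace Z] [T2Space Z] hq hs in
lemma leg_inter {k : ℕ} {z : Z} (h1 : z ∈ q '' Leg (ep (sa k))) (h2 : z ∈ q '' Leg (ep (sb k))) :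
    z = q v0 ∨ z = q (ep (sa k)) := by
  obtain ⟨x, hx, rfl⟩ := h1
  obtain ⟨y, hy, h⟩ := h2
  rcases (hr _ _).1 h with rfl | ⟨n, ⟨rfl, rfl⟩ | ⟨rfl, rfl⟩⟩
  · left
    by_contra h3
    have h4 : y ≠ v0 := fun h5 => h3 (by rw [h5])
    refine sa_ne_sb k k (Finset.ext fun i => ?_)
    rw [← ep_supp, ← ep_supp, ← Leg_supp (ep_ne_v0 _) h4 hx, Leg_supp (ep_ne_v0 _) h4 hy]
  · exact absurd (ep_Leg (ep_ne_v0 _) hy (self_Leg _)) (sa_ne_sb _ _)
  · exact Or.inr (by beta_reduce; rw [ep_Leg (ep_ne_v0 _) hx (self_Leg _)])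

lemma loop_class {γ : ℝ → Z} (h : Loop γ) : ∃ k, q v0 ∈ γ '' Icc 0 1 ∧
    q (ep (sa k)) ∈ γ '' Icc 0 1 ∧
    γ '' Icc 0 1 ⊆ q '' Leg (ep (sa k)) ∪ q '' Leg (ep (sb k)) := by
  have hT := h.pre (q v0)
  have h0 : q v0 ∉ γ '' Icc 0 1 \ {q v0} := fun h => h.2 rfl
  have hex : ∀ x, x ≠ v0 → ∃ y, q y ∈ γ '' Icc 0 1 \ {q v0} ∧ y ∉ Leg x := by
    intro x hx
    obtain ⟨z, h1, h2⟩ := not_subset.1 (no_leg hq hr h hx)
    obtain ⟨y, rfl⟩ := hs z
    exact ⟨y, ⟨h1, fun h3 => h2 ⟨v0, v0_Leg _, h3.symm⟩⟩, fun h3 => h2 ⟨y, h3, rfl⟩⟩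
  obtain ⟨x, hx, -⟩ := hex (ep ∅) (ep_ne_v0 _)
  have hx0 : x ≠ v0 := fun h1 => h0 (h1 ▸ hx)
  obtain ⟨y, hy, hyx⟩ := hex x hx0
  have hk : ∃ k, x ∈ Leg (ep (sa k)) ∨ x ∈ Leg (ep (sb k)) := by
    obtain ⟨k, h1⟩ := (class_leg hq hs hr hT h0 hx hy).resolve_left hyx
    exact ⟨k, h1.imp And.left And.left⟩
  obtain ⟨k, hk⟩ := hk
  have hsame : ∀ {F G : Finset ℕ}, x ∈ Leg (ep F) → x ∈ Leg (ep G) → F = G := by
    intro F G h1 h2
    ext i
    rw [← ep_supp, ← ep_supp, ← Leg_supp (ep_ne_v0 _) hx0 h1, Leg_supp (ep_ne_v0 _) hx0 h2]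
  have hsub : γ '' Icc 0 1 ⊆ q '' Leg (ep (sa k)) ∪ q '' Leg (ep (sb k)) := by
    intro z hz
    obtain ⟨w, rfl⟩ := hs z
    by_cases hw : w = v0
    · exact Or.inl ⟨w, hw ▸ v0_Leg _, rfl⟩
    have hw' : q w ∈ γ '' Icc 0 1 \ {q v0} := ⟨hz, fun h1 => hw (q_top hr h1)⟩
    have htr : ∀ F, x ∈ Leg (ep F) → w ∈ Leg x → w ∈ Leg (ep F) := fun F h1 h2 =>
      mem_Leg (ep_ne_v0 _) hw fun i => (Leg_supp hx0 hw h2 i).trans (Leg_supp (ep_ne_v0 _) hx0 h1 i)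
    rcases class_leg hq hs hr hT h0 hx hw' with h1 | ⟨l, h1 | h1⟩
    · exact hk.imp (fun h2 => ⟨w, htr _ h2 h1, rfl⟩) fun h2 => ⟨w, htr _ h2 h1, rfl⟩
    · rcases hk with h2 | h2
      · exact Or.inr ⟨w, sa_inj (hsame h1.1 h2) ▸ h1.2, rfl⟩
      · exact absurd (hsame h1.1 h2) (sa_ne_sb _ _)
    · rcases hk with h2 | h2
      · exact absurd (hsame h2 h1.1) (sa_ne_sb _ _)
      · exact Or.inl ⟨w, sb_inj (hsame h1.1 h2) ▸ h1.2, rfl⟩
  have hab : q (ep (sb k)) = q (ep (sa k)) := (hr _ _).2 (Or.inr ⟨k, Or.inr ⟨rfl, rfl⟩⟩)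
  have key : ∀ z z', (z = q v0 ∧ z' = q (ep (sa k))) ∨ (z' = q v0 ∧ z = q (ep (sa k))) →
      z ∈ γ '' Icc 0 1 := by
    intro z z' hz
    by_contra hn
    have hin : z' ∈ q '' Leg (ep (sa k)) ∧ z' ∈ q '' Leg (ep (sb k)) := by
      rcases hz with ⟨-, rfl⟩ | ⟨rfl, -⟩
      · exact ⟨⟨_, self_Leg _, rfl⟩, _, self_Leg _, hab⟩
      · exact ⟨⟨_, v0_Leg _, rfl⟩, _, v0_Leg _, rfl⟩
    rcases cut2 (h.pre z') ((Leg_closed _).isCompact.image hq).isClosed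
      ((Leg_closed _).isCompact.image hq).isClosed (sdiff_subset.trans hsub) (by
        intro u hu h1 h2
        rcases leg_inter hr h1 h2 with h3 | h3 <;> rcases hz with ⟨h4, h5⟩ | ⟨h4, h5⟩
        · exact hn (h4 ▸ h3 ▸ hu.1)
        · exact hu.2 (h3.trans h4.symm)
        · exact hu.2 (h3.trans h5.symm)
        · exact hn (h5 ▸ h3 ▸ hu.1)) with h1 | h1
    · refine no_leg hq hr h (ep_ne_v0 (sa k)) fun u hu => ?_
      by_cases h2 : u = z'
      · exact h2 ▸ hin.1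
      · exact h1 ⟨hu, h2⟩
    · refine no_leg hq hr h (ep_ne_v0 (sb k)) fun u hu => ?_
      by_cases h2 : u = z'
      · exact h2 ▸ hin.2
      · exact h1 ⟨hu, h2⟩
  exact ⟨k, key _ _ (Or.inl ⟨rfl, rfl⟩), key _ _ (Or.inr ⟨rfl, rfl⟩), hsub⟩

theorem not_PP : ¬ PP Z := by
  rintro ⟨g, g0, w, h1, h2, h3, h4⟩
  choose k a1 a2 a3 using fun j => loop_class hq hs hr (h1 j)
  obtain ⟨k0, -, -, b3⟩ := loop_class hq hs hr h2
  have hw : q v0 = w := h3 0 1 zero_ne_one ⟨a1 0, a1 1⟩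
  have hk : Function.Injective k := by
    intro i j hij
    by_contra h5
    have : q (ep (sa (k i))) = w := h3 i j h5 ⟨a2 i, hij ▸ a2 j⟩
    exact ep_ne_v0 _ (q_top hr (this.trans hw.symm))
  let A : Set Lk := {x | x.1.2 (mm k0) = x.1.1}
  let B : Set Lk := {x | x.1.2 (mm k0) = 0}
  have hA : IsClosed (q '' A) :=
    ((isClosed_eq (by fun_prop) (by fun_prop)).isCompact.image hq).isClosed
  have hB : IsClosed (q '' B) :=
    ((isClosed_eq (by fun_prop) continuous_const).isCompact.image hq).isClosed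
  have hLA : ∀ F, mm k0 ∈ F → Leg (ep F) ⊆ A := by
    intro F hF x hx
    have := hx (mm k0)
    simp only [ep, ev, if_pos hF] at this
    exact mul_right_cancel₀ (ht_pos F).ne' (this.trans (mul_comm _ _))
  have hLB : ∀ F, mm k0 ∉ F → Leg (ep F) ⊆ B := by
    intro F hF x hx
    have := hx (mm k0)
    simp only [ep, ev, if_neg hF, zero_mul] at this
    exact (mul_eq_zero.1 this).resolve_right (ht_pos F).ne'
  have hev : ∀ᶠ j in atTop, g j '' Icc 0 1 ⊆ q '' A ∨ g j '' Icc 0 1 ⊆ q '' B := by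
    have : ∀ᶠ j in atTop, k j ≠ k0 := by
      rw [← Nat.cofinite_eq_atTop]
      exact ((finite_singleton k0).preimage hk.injOn).subset fun j hj => not_not.1 hj
    filter_upwards [this] with j hj
    have h5 : mm k0 ≠ mm (k j) := fun h => hj (mm_inj h).symm
    have h6 : mm k0 ≠ mm (k j) + 1 := by
      have := mm_mod k0
      have := mm_mod (k j)
      omega
    by_cases h7 : mm k0 ∈ GG (k j)
    · exact Or.inl ((a3 j).trans (union_subset
        (image_mono (hLA _ (Finset.mem_insert_of_mem h7)))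
        (image_mono (hLA _ (Finset.mem_insert_of_mem h7)))))
    · exact Or.inr ((a3 j).trans (union_subset
        (image_mono (hLB _ (by simp [sa, h5, h7]))) (image_mono (hLB _ (by simp [sb, h6, h7])))))
  have hlim : ∀ C : Set Z, IsClosed C → (∃ᶠ j in atTop, g j '' Icc 0 1 ⊆ C) →
      g0 '' Icc 0 1 ⊆ C := by
    rintro C hC hf _ ⟨s, hs, rfl⟩
    exact hC.mem_of_frequently_of_tendsto (hf.mono fun j hj => hj ⟨s, hs, rfl⟩) (h4 s)
  have hab : q (ep (sb k0)) = q (ep (sa k0)) := (hr _ _).2 (Or.inr ⟨k0, Or.inr ⟨rfl, rfl⟩⟩)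
  have hAB : ∀ x, x ∈ A → x ∈ B → x = v0 := fun x h5 h6 =>
    Subtype.ext (Lk_cone.eq_zero x.2 ((show x.1.2 (mm k0) = x.1.1 from h5).symm.trans h6))
  have ma : mm k0 ∈ sa k0 := Finset.mem_insert_self _ _
  have mb : mm k0 ∉ sb k0 := by
    rw [sb, Finset.mem_insert, not_or]
    exact ⟨by omega, fun h => lt_irrefl _ (mm_gt h)⟩
  rcases frequently_or_distrib.1 hev.frequently with h5 | h5
  · refine no_leg hq hr h2 (ep_ne_v0 (sa k0)) fun u hu => ?_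
    refine (b3 hu).elim id ?_
    rintro ⟨x, hx, rfl⟩
    obtain ⟨y, hy, h6⟩ := hlim _ hA h5 hu
    rcases (hr _ _).1 h6 with rfl | ⟨n, ⟨rfl, rfl⟩ | ⟨rfl, rfl⟩⟩
    · exact ⟨v0, v0_Leg _, by rw [hAB y hy (hLB _ mb hx)]⟩
    · beta_reduce
      rw [ep_Leg (ep_ne_v0 _) hx (self_Leg _)]
      exact ⟨_, self_Leg _, hab.symm⟩
    · exact absurd (ep_Leg (ep_ne_v0 _) hx (self_Leg _)) (sa_ne_sb _ _)
  · refine no_leg hq hr h2 (ep_ne_v0 (sb k0)) fun u hu => ?_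
    refine (b3 hu).elim ?_ id
    rintro ⟨x, hx, rfl⟩
    obtain ⟨y, hy, h6⟩ := hlim _ hB h5 hu
    rcases (hr _ _).1 h6 with rfl | ⟨n, ⟨rfl, rfl⟩ | ⟨rfl, rfl⟩⟩
    · exact ⟨v0, v0_Leg _, by rw [hAB y (hLA _ ma hx) hy]⟩
    · exact absurd (ep_Leg (ep_ne_v0 _) hx (self_Leg _)).symm (sa_ne_sb _ _)
    · beta_reduce
      rw [ep_Leg (ep_ne_v0 _) hx (self_Leg _)]
      exact ⟨_, self_Leg _, hab⟩

end

noncomputable def lp {Z : Type} (q : Lk → Z) (x y : Lk) (s : ℝ) : Z :=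
  if s ≤ 1 / 2 then q (sc Lk_cone (projIcc 0 1 zero_le_one (2 * s)) x)
  else q (sc Lk_cone (projIcc 0 1 zero_le_one (2 - 2 * s)) y)

theorem yes_PP {Z : Type} [TopologicalSpace Z] {q : Lk → Z} (hq : Continuous q)
    (hr : ∀ x y, q x = q y ↔ PR (fun k => ep (sa' k)) (fun k => ep (sb' k)) x y) : PP Z := by
  have hsc : ∀ (s t : unitInterval) (F G : Finset ℕ), sc Lk_cone s (ep F) = sc Lk_cone t (ep G) →
      (s = 0 ∧ t = 0) ∨ (F = G ∧ s = t) := by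
    intro s t F G h
    by_cases h1 : F = G
    · subst h1
      exact Or.inr ⟨rfl, sc_inj Lk_cone (ep_ne F) h⟩
    · have := ep_NP h1 s t (congrArg Subtype.val h)
      exact Or.inl ⟨Subtype.ext this.1, Subtype.ext this.2⟩
  have hsc1 : ∀ (s : unitInterval) (F G : Finset ℕ), sc Lk_cone s (ep F) = ep G →
      F = G ∧ s = 1 := fun s F G h =>
    (hsc s 1 F G (by rw [h, sc_one])).resolve_left fun h1 => one_ne_zero h1.2
  have hqq : ∀ (s t : unitInterval) (F G : Finset ℕ),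
      q (sc Lk_cone s (ep F)) = q (sc Lk_cone t (ep G)) →
      (s = 0 ∧ t = 0) ∨ (F = G ∧ s = t) ∨ (s = 1 ∧ t = 1 ∧
        ∃ n, (F = sa' n ∧ G = sb' n) ∨ (F = sb' n ∧ G = sa' n)) := by
    intro s t F G h
    rcases (hr _ _).1 h with h1 | ⟨n, h1 | h1⟩
    · exact (hsc s t F G h1).imp id Or.inl
    · exact Or.inr (Or.inr ⟨(hsc1 _ _ _ h1.1).2, (hsc1 _ _ _ h1.2).2, n,
        Or.inl ⟨(hsc1 _ _ _ h1.1).1, (hsc1 _ _ _ h1.2).1⟩⟩)
    · exact Or.inr (Or.inr ⟨(hsc1 _ _ _ h1.1).2, (hsc1 _ _ _ h1.2).2, n,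
        Or.inr ⟨(hsc1 _ _ _ h1.1).1, (hsc1 _ _ _ h1.2).1⟩⟩)
  have hloop : ∀ n, Loop (lp q (ep (sa' n)) (ep (sb' n))) := by
    intro n
    refine ⟨?_, ?_, ?_⟩
    · refine Continuous.if_le
        (hq.comp ((sc_cont' Lk_cone _).comp (continuous_projIcc.comp (by fun_prop))))
        (hq.comp ((sc_cont' Lk_cone _).comp (continuous_projIcc.comp (by fun_prop)))) continuous_id
        continuous_const ?_
      rintro s rfl
      have e1 : projIcc (0 : ℝ) 1 zero_le_one (2 * (1 / 2)) = 1 := by norm_num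
      have e2 : projIcc (0 : ℝ) 1 zero_le_one (2 - 2 * (1 / 2)) = 1 := by norm_num
      rw [e1, e2, sc_one, sc_one]
      exact (hr _ _).2 (Or.inr ⟨n, Or.inl ⟨rfl, rfl⟩⟩)
    · have e1 : projIcc (0 : ℝ) 1 zero_le_one (2 * 0) = 0 := by norm_num
      have e2 : projIcc (0 : ℝ) 1 zero_le_one (2 - 2 * 1) = 0 := by norm_num
      simp only [lp]
      rw [if_pos (by norm_num), if_neg (by norm_num), e1, e2, sc_zero, sc_zero]
    · intro s hs t ht h
      have p1 : ∀ s ∈ Ico (0 : ℝ) 1, s ≤ 1 / 2 → (projIcc (0 : ℝ) 1 zero_le_one (2 * s)).1 = 2 * s :=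
        fun s hs h => by rw [projIcc_of_mem _ ⟨by linarith [hs.1], by linarith⟩]
      have p2 : ∀ s ∈ Ico (0 : ℝ) 1, ¬ s ≤ 1 / 2 →
          (projIcc (0 : ℝ) 1 zero_le_one (2 - 2 * s)).1 = 2 - 2 * s :=
        fun s hs h => by rw [projIcc_of_mem _ ⟨by linarith [hs.2], by linarith⟩]
      simp only [lp] at h
      split_ifs at h with h1 h2 h2 <;> rcases hqq _ _ _ _ h with h3 | h3 | h3 <;>
        simp only [Subtype.ext_iff, p1 s hs, p1 t ht, p2 s hs, p2 t ht, h1, h2, not_false_eq_true,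
          Icc.coe_zero, Icc.coe_one] at h3
      all_goals first
        | linarith [h3.1, h3.2, hs.2, ht.2]
        | linarith [h3.2]
        | linarith [h3.1, h3.2.1]
        | exact absurd h3.1 (sa'_ne_sb' _ _)
        | exact absurd h3.1.symm (sa'_ne_sb' _ _)
  have hmem : ∀ n s, ∃ t F, (F = sa' n ∨ F = sb' n) ∧
      lp q (ep (sa' n)) (ep (sb' n)) s = q (sc Lk_cone t (ep F)) := by
    intro n s
    unfold lp
    split_ifs
    · exact ⟨_, _, Or.inl rfl, rfl⟩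
    · exact ⟨_, _, Or.inr rfl, rfl⟩
  have e1 : ∀ j, sa' (2 * j + 1) = insert (4 * j + 2) {2} ∧ sb' (2 * j + 1) = insert (4 * j + 3) {3} := by
    intro j
    have h1 : ¬ (2 * j + 1) % 2 = 0 := by omega
    have h2 : (2 * j + 1) / 2 = j := by omega
    simp only [sa', sb', if_neg h1, h2, and_self]
  refine ⟨fun j => lp q (ep (sa' (2 * j + 1))) (ep (sb' (2 * j + 1))),
    lp q (ep (sa' (2 * 0 + 1))) (ep (sb' (2 * 0 + 1))), q v0, fun j => hloop _, hloop _, ?_, ?_⟩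
  · rintro i j hij _ ⟨⟨s, -, rfl⟩, t, -, h⟩
    obtain ⟨s', F, h1, h2⟩ := hmem (2 * i + 1) s
    obtain ⟨t', G, h3, h4⟩ := hmem (2 * j + 1) t
    simp only at h
    rw [h2, h4] at h
    show lp q _ _ s = _
    rw [h2]
    have c1 : ∀ {m n : ℕ}, sa' m = sa' n → m = n := fun h => sa'_inj h
    have c2 : ∀ {m n : ℕ}, sb' m = sb' n → m = n := fun h => sb'_inj h
    have c3 := sa'_ne_sb'
    rcases hqq _ _ _ _ h with h5 | h5 | ⟨-, -, n, h5 | h5⟩
    · rw [h5.2, sc_zero]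
    · exfalso
      rcases h1 with rfl | rfl <;> rcases h3 with rfl | rfl
      · have := c1 h5.1; omega
      · exact c3 _ _ h5.1.symm
      · exact c3 _ _ h5.1
      · have := c2 h5.1; omega
    · exfalso
      rcases h1 with rfl | rfl <;> rcases h3 with rfl | rfl
      · exact c3 _ _ h5.2
      · exact c3 _ _ h5.2
      · have := c1 h5.1; have := c2 h5.2; omega
      · exact c3 _ _ h5.1.symm
    · exfalso
      rcases h1 with rfl | rfl <;> rcases h3 with rfl | rfl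
      · exact c3 _ _ h5.1
      · have := c2 h5.1; have := c1 h5.2; omega
      · exact c3 _ _ h5.1
      · exact c3 _ _ h5.2.symm
  · intro s
    simp only [lp, (e1 _).1, (e1 _).2]
    split_ifs
    · exact ((hq.comp ((sc_cont Lk_cone).comp (Continuous.prodMk_right _))).tendsto _).comp
        (sp_tend 2)
    · exact ((hq.comp ((sc_cont Lk_cone).comp (Continuous.prodMk_right _))).tendsto _).comp
        (sp_tend 3)

end Pool.Agent.H.MP_211c6f_gt
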