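import Pool.Agent.H.MP_211c6f_gt.Cone

open Set Topology Filter

namespace Pool.Agent.H.MP_211c6f_gt

def PR {α : Type} (a b : ℕ → α) (x y : α) : Prop :=
  x = y ∨ ∃ n, (x = a n ∧ y = b n) ∨ (x = b n ∧ y = a n)

lemma PR.symm {α : Type} {a b : ℕ → α} {x y : α} (h : PR a b x y) : PR a b y x := by
  rcases h with h | ⟨n, h | h⟩
  · exact Or.inl h.symm
  · exact Or.inr ⟨n, Or.inr ⟨h.2, h.1⟩⟩
  · exact Or.inr ⟨n, Or.inl ⟨h.2, h.1⟩⟩

lemma PR.trans {α : Type} {a b : ℕ → α} (ha : Function.Injective a) (hb : Function.Injective b)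
    (hab : ∀ i j, a i ≠ b j) {x y z : α} (h : PR a b x y) (h' : PR a b y z) : PR a b x z := by
  rcases h with rfl | ⟨n, h⟩
  · exact h'
  rcases h' with rfl | ⟨k, h'⟩
  · exact Or.inr ⟨n, h⟩
  rcases h with ⟨rfl, rfl⟩ | ⟨rfl, rfl⟩ <;> rcases h' with ⟨h1, rfl⟩ | ⟨h1, rfl⟩
  · exact absurd h1.symm (hab _ _)
  · exact Or.inl (by rw [hb h1])
  · exact Or.inl (by rw [ha h1])
  · exact absurd h1 (hab _ _)

lemma sInf_iff {α : Type} {a b : ℕ → α} (ha : Function.Injective a) (hb : Function.Injective b)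
    (hab : ∀ i j, a i ≠ b j) (x y : α) :
    (sInf {s : Setoid α | ∀ n, s.r (a n) (b n)}).r x y ↔ PR a b x y := by
  let s0 : Setoid α := ⟨PR a b, fun _ => Or.inl rfl, PR.symm, PR.trans ha hb hab⟩
  constructor
  · intro h
    have : sInf {s : Setoid α | ∀ n, s.r (a n) (b n)} ≤ s0 :=
      sInf_le fun n => Or.inr ⟨n, Or.inl ⟨rfl, rfl⟩⟩
    exact this h
  · intro h
    have : s0 ≤ sInf {s : Setoid α | ∀ n, s.r (a n) (b n)} := by
      refine le_sInf fun s hs => ?_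
      rintro x y (rfl | ⟨n, ⟨rfl, rfl⟩ | ⟨rfl, rfl⟩⟩)
      · exact s.refl _
      · exact hs n
      · exact s.symm (hs n)
    exact this h

lemma t2_quot {X : Type} [TopologicalSpace X] [CompactSpace X] [T2Space X] (s : Setoid X)
    (h : IsClosed {p : X × X | s.r p.1 p.2}) : T2Space (Quotient s) := by
  have hcl : ∀ C : Set X, IsClosed C → IsClosed (Quotient.mk s '' C) := by
    intro C hC
    rw [← isQuotientMap_quotient_mk'.isClosed_preimage]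
    have : Quotient.mk' ⁻¹' (Quotient.mk s '' C) =
        Prod.fst '' ({p : X × X | s.r p.1 p.2} ∩ Prod.snd ⁻¹' C) := by
      ext x
      constructor
      · rintro ⟨y, hy, h1⟩
        exact ⟨(x, y), ⟨s.symm (Quotient.exact h1), hy⟩, rfl⟩
      · rintro ⟨p, ⟨h1, h2⟩, rfl⟩
        exact ⟨p.2, h2, Quotient.sound (s.symm h1)⟩
    rw [this]
    exact ((h.inter (hC.preimage continuous_snd)).isCompact.image continuous_fst).isClosed
  refine ⟨fun x y hxy => ?_⟩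
  have hf : ∀ x : Quotient s, IsClosed (Quotient.mk s ⁻¹' {x}) := by
    intro x
    obtain ⟨x, rfl⟩ := Quotient.exists_rep x
    rw [← image_singleton]
    exact (hcl _ isClosed_singleton).preimage continuous_quotient_mk'
  obtain ⟨U, W, hU, hW, h1, h2, h3⟩ := normal_separation (hf x) (hf y)
    ((disjoint_singleton.2 hxy).preimage _)
  refine ⟨(Quotient.mk s '' Uᶜ)ᶜ, (Quotient.mk s '' Wᶜ)ᶜ, (hcl _ hU.isClosed_compl).isOpen_compl,
    (hcl _ hW.isClosed_compl).isOpen_compl, ?_, ?_, ?_⟩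
  · rintro ⟨z, h4, h5⟩
    exact h4 (h1 h5)
  · rintro ⟨z, h4, h5⟩
    exact h4 (h2 h5)
  · rw [disjoint_left]
    intro z h4 h5
    obtain ⟨z, rfl⟩ := Quotient.exists_rep z
    by_cases h6 : z ∈ U
    · exact h5 ⟨z, disjoint_left.1 h3 h6, rfl⟩
    · exact h4 ⟨z, h6, rfl⟩

lemma closed_union_range {Z W : Type} [TopologicalSpace Z] [T1Space Z] [TopologicalSpace W]
    [T2Space W] {g : Z → W} (hg : Continuous g) {f : ℕ → Z} {w : W}
    (h : Tendsto (fun k => g (f k)) atTop (𝓝 w)) : IsClosed (g ⁻¹' {w} ∪ range f) := by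
  rw [← isOpen_compl_iff, isOpen_iff_mem_nhds]
  intro z hz
  rw [mem_compl_iff, mem_union, not_or] at hz
  obtain ⟨U, U', hU, hU', h1, h2, h3⟩ := t2_separation hz.1
  obtain ⟨N, hN⟩ := eventually_atTop.1 (h (hU'.mem_nhds h2))
  have h4 : IsClosed (f '' Iio N) := ((finite_Iio N).image f).isClosed
  filter_upwards [(hU.preimage hg).mem_nhds h1,
    h4.isOpen_compl.mem_nhds fun h5 => hz.2 (image_subset_range _ _ h5)] with y h5 h6
  rintro (h7 | ⟨k, rfl⟩)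
  · exact disjoint_left.1 h3 h5 ((show g y = w from h7) ▸ h2)
  · rcases lt_or_ge k N with h7 | h7
    · exact h6 ⟨k, h7, rfl⟩
    · exact disjoint_left.1 h3 h5 (hN k h7)

def Loop {Z : Type} [TopologicalSpace Z] (γ : ℝ → Z) : Prop :=
  Continuous γ ∧ γ 0 = γ 1 ∧ InjOn γ (Ico 0 1)

lemma Loop.pre {Z : Type} [TopologicalSpace Z] {γ : ℝ → Z} (h : Loop γ) (z : Z) :
    IsPreconnected (γ '' Icc 0 1 \ {z}) := by
  have him : γ '' Icc 0 1 = γ '' Ico 0 1 := by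
    rw [← Ico_insert_right zero_le_one, image_insert_eq, ← h.2.1]
    exact insert_eq_of_mem ⟨0, by simp, rfl⟩
  by_cases hz : z ∈ γ '' Ico 0 1
  · obtain ⟨s, hs, rfl⟩ := hz
    rcases eq_or_lt_of_le hs.1 with rfl | h0
    · have : γ '' Icc 0 1 \ {γ 0} = γ '' Ioo 0 1 := by
        rw [him]
        ext y
        constructor
        · rintro ⟨⟨t, ht, rfl⟩, h1⟩
          exact ⟨t, ⟨lt_of_le_of_ne ht.1 fun h2 => h1 (by rw [← h2]; rfl), ht.2⟩, rfl⟩
        · rintro ⟨t, ht, rfl⟩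
          exact ⟨⟨t, ⟨ht.1.le, ht.2⟩, rfl⟩, fun h1 => ht.1.ne' (h.2.2 ⟨ht.1.le, ht.2⟩ hs h1)⟩
      rw [this]
      exact isPreconnected_Ioo.image _ h.1.continuousOn
    · have : γ '' Icc 0 1 \ {γ s} = γ '' Ico 0 s ∪ γ '' Ioc s 1 := by
        ext y
        constructor
        · rintro ⟨⟨t, ht, rfl⟩, h1⟩
          rcases lt_trichotomy t s with h2 | h2 | h2
          · exact Or.inl ⟨t, ⟨ht.1, h2⟩, rfl⟩
          · exact absurd (by rw [h2]; rfl) h1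
          · exact Or.inr ⟨t, ⟨h2, ht.2⟩, rfl⟩
        · rintro (⟨t, ht, rfl⟩ | ⟨t, ht, rfl⟩)
          · exact ⟨⟨t, ⟨ht.1, (ht.2.trans hs.2).le⟩, rfl⟩,
              fun h1 => ht.2.ne (h.2.2 ⟨ht.1, ht.2.trans hs.2⟩ hs h1)⟩
          · refine ⟨⟨t, ⟨hs.1.trans ht.1.le, ht.2⟩, rfl⟩, fun h1 => ?_⟩
            rcases eq_or_lt_of_le ht.2 with rfl | h2
            · exact h0.ne (h.2.2 (by simp) hs (h.2.1.trans h1))
            · exact ht.1.ne' (h.2.2 ⟨hs.1.trans ht.1.le, h2⟩ hs h1)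
      rw [this]
      exact IsPreconnected.union (γ 0) ⟨0, ⟨le_rfl, h0⟩, rfl⟩ ⟨1, ⟨hs.2, le_rfl⟩, h.2.1.symm⟩
        (isPreconnected_Ico.image _ h.1.continuousOn) (isPreconnected_Ioc.image _ h.1.continuousOn)
  · rw [sdiff_singleton_eq_self (by rwa [him])]
    exact isPreconnected_Icc.image _ h.1.continuousOn

lemma Loop.not_line {X Z : Type} [TopologicalSpace X] [CompactSpace X] [TopologicalSpace Z]
    [T2Space Z] {q : X → Z} (hq : Continuous q) {S : Set X} (hS : IsClosed S) (hi : InjOn q S)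
    {η : X → ℝ} (hη : Continuous η) (hi' : InjOn η S) {γ : ℝ → Z} (h : Loop γ) :
    ¬ γ '' Icc 0 1 ⊆ q '' S := by
  intro hs
  have key : ∀ y0 ∈ S, ∀ y1 ∈ S, η y0 < η y1 → q y0 ∈ γ '' Icc 0 1 → q y1 ∈ γ '' Icc 0 1 →
      False := by
    intro y0 h0 y1 h1 hlt h2 h3
    set c := (η y0 + η y1) / 2
    have hc0 : η y0 < c := by simp only [c]; linarith
    have hc1 : c < η y1 := by simp only [c]; linarith
    obtain ⟨T, hT, hT1, hT2, hT3, hT4⟩ : ∃ T, IsPreconnected T ∧ T ⊆ γ '' Icc 0 1 ∧ q y0 ∈ T ∧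
        q y1 ∈ T ∧ ∀ y ∈ S, η y = c → q y ∉ T := by
      by_cases h4 : ∃ y ∈ S, η y = c
      · obtain ⟨y, h4, h5⟩ := h4
        refine ⟨_, h.pre (q y), sdiff_subset, ⟨h2, fun h6 => ?_⟩, ⟨h3, fun h6 => ?_⟩,
          fun y' h6 h7 h8 => h8.2 (by rw [hi' h6 h4 (h7.trans h5.symm)]; rfl)⟩
        · rw [hi h0 h4 h6] at hc0
          exact hc0.ne h5
        · rw [hi h1 h4 h6] at hc1
          exact hc1.ne' h5
      · exact ⟨_, isPreconnected_Icc.image _ h.1.continuousOn, subset_rfl, h2, h3,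
          fun y h5 h6 _ => h4 ⟨y, h5, h6⟩⟩
    rcases cut2 (A := q '' (S ∩ {y | η y ≤ c})) (B := q '' (S ∩ {y | c ≤ η y})) hT
      ((hS.inter (isClosed_le hη continuous_const)).isCompact.image hq).isClosed
      ((hS.inter (isClosed_le continuous_const hη)).isCompact.image hq).isClosed
      (by
        intro z hz
        obtain ⟨y, hy, rfl⟩ := hs (hT1 hz)
        rcases le_total (η y) c with h4 | h4
        · exact Or.inl ⟨y, ⟨hy, h4⟩, rfl⟩
        · exact Or.inr ⟨y, ⟨hy, h4⟩, rfl⟩)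
      (by
        rintro _ hz ⟨y, hy, rfl⟩ ⟨y', hy', h4⟩
        rw [hi hy'.1 hy.1 h4] at hy'
        exact hT4 y hy.1 (le_antisymm hy.2 hy'.2) hz) with h4 | h4
    · obtain ⟨y, hy, h5⟩ := h4 hT3
      rw [hi hy.1 h1 h5] at hy
      exact absurd hy.2 (not_le.2 hc1)
    · obtain ⟨y, hy, h5⟩ := h4 hT2
      rw [hi hy.1 h0 h5] at hy
      exact absurd hy.2 (not_le.2 hc0)
  have m0 : γ 0 ∈ γ '' Icc 0 1 := ⟨0, by simp, rfl⟩
  have m1 : γ (1 / 2) ∈ γ '' Icc 0 1 := ⟨1 / 2, by norm_num, rfl⟩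
  obtain ⟨y0, h0, e0⟩ := hs m0
  obtain ⟨y1, h1, e1⟩ := hs m1
  rw [← e0] at m0
  rw [← e1] at m1
  rcases lt_trichotomy (η y0) (η y1) with h2 | h2 | h2
  · exact key y0 h0 y1 h1 h2 m0 m1
  · rw [hi' h0 h1 h2, e1] at e0
    have := h.2.2 (by norm_num) (by norm_num) e0
    norm_num at this
  · exact key y1 h1 y0 h0 h2 m1 m0

def PP (Z : Type) [TopologicalSpace Z] : Prop :=
  ∃ (g : ℕ → ℝ → Z) (g0 : ℝ → Z) (w : Z), (∀ j, Loop (g j)) ∧ Loop g0 ∧
    (∀ i j, i ≠ j → g i '' Icc 0 1 ∩ g j '' Icc 0 1 ⊆ {w}) ∧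
    ∀ s, Tendsto (fun j => g j s) atTop (𝓝 (g0 s))

lemma PP.map {Z W : Type} [TopologicalSpace Z] [TopologicalSpace W] {e : Z → W}
    (he : Continuous e) (hi : Function.Injective e) (h : PP Z) : PP W := by
  obtain ⟨g, g0, w, h1, h2, h3, h4⟩ := h
  have key : ∀ γ : ℝ → Z, Loop γ → Loop (e ∘ γ) := fun γ h =>
    ⟨he.comp h.1, congrArg e h.2.1, hi.comp_injOn h.2.2⟩
  refine ⟨fun j => e ∘ g j, e ∘ g0, e w, fun j => key _ (h1 j), key _ h2, ?_,
    fun s => (he.tendsto _).comp (h4 s)⟩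
  rintro i j hij _ ⟨⟨s, hs, rfl⟩, t, ht, h5⟩
  exact congrArg e (h3 i j hij ⟨⟨s, hs, rfl⟩, t, ht, hi h5⟩)

end Pool.Agent.H.MP_211c6f_gt
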